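import Pool.Agent.H52.XR2.S1

/-!
# Project XR2: the statements, bodies in 3-space (plan: team-store XR2_PLAN_helper52.md)
-/

set_option autoImplicit false

open MeasureTheory Set Filter Topology Metric Asymptotics
open scoped Real ENNReal RealInnerProductSpace

namespace Pool.XR2

open Pool.Agent.H45.XR

/-! ## Part A2: constancy of the type -/

/-- SGB: sheared bodies. -/
def SGBStmt : Prop := ∀ K : Set (ℂ × ℝ), Body3 K → (∀ g, Body3 (Sg g K)) ∧ Sg 0 K = K ∧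
  (∀ g, C1 K → C1 (Sg g K))

/-- CSC: continuity of the sections (also with respect to the slope). -/
def CSCStmt : Prop := ∀ (K : Set (ℂ × ℝ)) (g : ℕ → ℂ) (g' : ℂ) (h : ℕ → ℝ) (h' : ℝ), Body3 K →
  Tendsto g atTop (𝓝 g') → Tendsto h atTop (𝓝 h') → h' ∈ Hts (Sg g' K) →
  (∀ᶠ n in atTop, h n ∈ Hts (Sg (g n) K)) ∧
  BLim (fun n => Cq (Sg (g n) K) (h n)) (Cq (Sg g' K) h') ∧
  Tendsto (fun n => cen (sec (Sg (g n) K) (h n))) atTop (𝓝 (cen (sec (Sg g' K) h')))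

/-- PMH: sections of mates. -/
def PMHStmt : Prop := ∀ (K K' : Set (ℂ × ℝ)) (φ₀ φ₁ : ℝ), Body3 K → Mate K K' φ₀ φ₁ → φ₀ < φ₁ →
  φ₁ < φ₀ + π → NSH K φ₀ → NSH K φ₁ → Hts K' = Hts K ∧ ∀ h ∈ Hts K,
    cen (sec K' h) = cen (sec K h) ∧ PM (Cq K h) (Cq K' h) φ₀ φ₁ ∧ ∫ z in Cq K h, z = 0

/-- RCT: the type is continuous. -/
def RCTStmt : Prop := ∀ (K K' : Set (ℂ × ℝ)) (φ₀ φ₁ : ℝ), Body3 K → Mate K K' φ₀ φ₁ → φ₀ < φ₁ →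
  φ₁ < φ₀ + π → NSH K φ₀ → NSH K φ₁ → ContinuousOn (rot3 K K' φ₀ φ₁) (Hts K)

/-- TPA: the upper boundary point. -/
def TPAStmt : Prop := ∀ (C : Set ℂ) (φ t : ℝ), Body C → NoSeg C φ →
  (∃ z ∈ interior C, tc φ z = t) →
  fl C φ (tpA C φ t) < tpA C φ t ∧ tpA C φ t < fl C φ (tpA C φ t) + 2 * π ∧
  tc φ (pt C (tpA C φ t)) = t ∧
  ∀ θ, fl C φ θ < θ → θ < fl C φ θ + 2 * π → tc φ (pt C θ) = t → θ = tpA C φ t

/-- TAC: continuity of the upper boundary point. -/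
def TACStmt : Prop := ∀ (C : ℕ → Set ℂ) (D : Set ℂ) (φ : ℝ) (t : ℕ → ℝ) (t' : ℝ),
  (∀ n, Body (C n)) → (∀ n, NoSeg (C n) φ) → Body D → NoSeg D φ → BLim C D →
  Tendsto t atTop (𝓝 t') → (∃ z ∈ interior D, tc φ z = t') →
  Tendsto (fun n => tpA (C n) φ (t n)) atTop (𝓝 (tpA D φ t'))

/-- DLT: two mates with accumulating equal sections are close to first order. -/
def DLTStmt : Prop := ∀ (K K' : Set (ℂ × ℝ)) (φ₀ φ₁ x y : ℝ), Body3 K → Mate K K' φ₀ φ₁ →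
  φ₀ < φ₁ → φ₁ < φ₀ + π → NSH K φ₀ → NSH K φ₁ → y ∈ ZZ K K' →
  (AccR (ZZ K K') y ∨ AccL (ZZ K K') y) → Inl K φ₀ x y →
  DifferentiableAt ℝ (fun h => xr (sec K h) φ₀ x) y →
  (fun h => rad (Cq K' h) (ta K φ₀ x h) - rad (Cq K h) (ta K φ₀ x h)) =o[𝓝 y] (fun h => h - y)

/-- XNH: countably many heights where the X-ray is not differentiable. -/
def XNHStmt : Prop := ∀ (K : Set (ℂ × ℝ)) (φ x : ℝ), Body3 K →
  {y : ℝ | y ∈ Hts K ∧ Inl K φ x y ∧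
    ¬ DifferentiableAt ℝ (fun h => xr (sec K h) φ x) y}.Countable

/-- NLH: flat closed chains in the direction of the heights occur for a null set of directions. -/
def NLHStmt : Prop := ∀ (K : Set (ℂ × ℝ)) (φ₀ x : ℝ) (p : ℤ) (q : ℕ), Body3 K → NSH K φ₀ →
  volume {φ₁ : ℝ | φ₀ < φ₁ ∧ φ₁ < φ₀ + π ∧ NSH K φ₁ ∧ ∃ y, FlatH K φ₀ φ₁ p q x y} = 0

/-- FHD: an accumulation point of equal sections with discrete equal sections on the right. -/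
def FHDStmt : Prop := ∀ (K : Set (ℂ × ℝ)) (φ₀ : ℝ), Body3 K → NSH K φ₀ →
  ∀ᵐ φ₁ : ℝ, φ₀ < φ₁ → φ₁ < φ₀ + π → NSH K φ₁ → ∀ K', Mate K K' φ₀ φ₁ →
  ∀ (y δ : ℝ) (p : ℤ) (q : ℕ), 0 < δ → 0 < p → p < q → y ∈ ZZ K K' →
  (AccR (ZZ K K') y ∨ AccL (ZZ K K') y) →
  (∀ h, y < h → h < y + δ → h ∈ Hts K ∧ rot3 K K' φ₀ φ₁ h = p / q) →
  (∀ h ∈ ZZ K K', y < h → h < y + δ → ∃ ε > 0, ∀ h' ∈ ZZ K K', |h' - h| < ε → h' = h) → False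

/-- NSA: almost no boundary segments. -/
def NSAStmt : Prop := ∀ K : Set (ℂ × ℝ), Body3 K → ∀ᵐ φ : ℝ, NSH K φ

/-- CRT: for almost all `φ₁` all mates have constant type. -/
def CRTStmt : Prop := ∀ (K : Set (ℂ × ℝ)) (φ₀ : ℝ), Body3 K → NSH K φ₀ →
  ∀ᵐ φ₁ : ℝ, φ₀ < φ₁ → φ₁ < φ₀ + π → NSH K φ₁ ∧ ∀ K', Mate K K' φ₀ φ₁ → K' ≠ K →
    ∃ τ : ℝ, 0 < τ ∧ τ < 1 ∧ ∀ h ∈ Hts K, rot3 K K' φ₀ φ₁ h = τ

/-! ## Part B2: close directions -/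

/-- SAC: `SymAff` is a closed condition. -/
def SACStmt : Prop := ∀ K : Set (ℂ × ℝ), Body3 K → IsClosed {φ : ℝ | SymAff K φ}

/-- CLS: types bounded below for close directions force a symmetry. -/
def CLSStmt : Prop := ∀ (K : Set (ℂ × ℝ)) (g : ℕ → ℂ) (φ θ τ : ℕ → ℝ)
  (K' : ℕ → Set (ℂ × ℝ)) (ψ c : ℝ), Body3 K → Tendsto g atTop (𝓝 0) → Tendsto φ atTop (𝓝 ψ) →
  Tendsto θ atTop (𝓝 0) → (∀ n, 0 < θ n) → (∀ n, NSH (Sg (g n) K) (φ n)) →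
  (∀ n, NSH (Sg (g n) K) (φ n + θ n)) → (∀ n, Mate (Sg (g n) K) (K' n) (φ n) (φ n + θ n)) →
  0 < c → (∀ n, c ≤ τ n) →
  (∀ n, ∀ h ∈ Hts (Sg (g n) K), rot3 (Sg (g n) K) (K' n) (φ n) (φ n + θ n) h = τ n) →
  SymAff K ψ

/-- KTF: the time of a turn is the same at all fast heights. -/
def KTFStmt : Prop := ∀ (K : Set (ℂ × ℝ)) (φ : ℝ), Body3 K → Unv3 K → ¬ SymAff K φ → NSH K φ →
  ∀ h ∈ Hts K, ∀ h' ∈ Hts K, Fast (Cq K h) φ → Fast (Cq K h') φ →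
    Tm (Cq K h) φ ≠ ⊤ ∧ Tm (Cq K h) φ = Tm (Cq K h') φ

/-! ## Part D: roundness and blunt tips -/

/-- S2D: sections of `C¹` bodies. -/
def S2DStmt : Prop := ∀ (K : Set (ℂ × ℝ)) (h : ℝ), Body3 K → C1 K → h ∈ Hts K → C1 (Cq K h)

/-- RND: roundness of all nearly horizontal sections. -/
def RNDStmt : Prop := ∀ K : Set (ℂ × ℝ), Body3 K → C1 K → Unv3 K → (∃ φ, ¬ SymAff K φ) →
  ∃ c > 0, ∃ η > 0, ∀ g : ℂ, ‖g‖ < η → ∀ h ∈ Hts (Sg g K), Round c (sec (Sg g K) h)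

/-- HL1: the improvement step. -/
def HL1Stmt : Prop := ∀ K : Set (ℂ × ℝ), Body3 K → C1 K → (0 : ℂ × ℝ) ∈ K → (∀ p ∈ K, 0 ≤ p.2) →
  (∃ c > 0, ∃ η > 0, ∀ g : ℂ, ‖g‖ < η → ∀ h ∈ Hts (Sg g K), Round c (sec (Sg g K) h)) →
  ∃ N : ℕ, 2 ≤ N ∧ ∃ ρ > 0, ∀ (z : ℂ) (a : ℝ), ‖z‖ ≤ ρ → a ≤ ρ → (z, a) ∈ K →
    (z / N, a / (2 * N)) ∈ K

/-- HLD: blunt extreme points. -/
def HLDStmt : Prop := ∀ K : Set (ℂ × ℝ), Body3 K → C1 K → (0 : ℂ × ℝ) ∈ K → (∀ p ∈ K, 0 ≤ p.2) →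
  (∃ c > 0, ∃ η > 0, ∀ g : ℂ, ‖g‖ < η → ∀ h ∈ Hts (Sg g K), Round c (sec (Sg g K) h)) →
  ∃ B > (0 : ℝ), ∃ α > (0 : ℝ), ∃ δ > (0 : ℝ), ∀ (z : ℂ) (a : ℝ), ‖z‖ ≤ δ → B * ‖z‖ ^ (1 + α) ≤ a → a ≤ δ →
    (z, a) ∈ K

/-- FST: blunt tips of all sections parallel to `u`. -/
def FSTStmt : Prop := ∀ (K : Set E3) (u : E3), IsConvexBody K → C1 K → ‖u‖ = 1 →
  (∀ b : OrthonormalBasis (Fin 3) ℝ E3, b 0 = u → ∃ c > 0, ∃ η > 0, ∀ g : ℂ, ‖g‖ < η →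
    ∀ h ∈ Hts (Sg g (coordE b ⁻¹' K)), Round c (sec (Sg g (coordE b ⁻¹' K)) h)) →
  ∀ b : OrthonormalBasis (Fin 3) ℝ E3, b 0 = u → ∀ h ∈ Hts (coordE b ⁻¹' K),
    Fast (Cq (coordE b ⁻¹' K) h) 0

/-! ## Part E: symmetry, Euclidean space -/

/-- UNV: unverified bodies in coordinates. -/
def UNVStmt : Prop := ∀ K : Set E3, Unver K → ∀ b : OrthonormalBasis (Fin 3) ℝ E3,
  Unv3 (coordE b ⁻¹' K)

/-- AFI: isotropic position. -/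
def AFIStmt : Prop := ∀ K : Set E3, IsConvexBody K →
  ∃ K₁ : Set E3, IsConvexBody K₁ ∧ IsoPos K₁ ∧ (Unver K → Unver K₁)

/-- SAR: in isotropic position the symmetries are orthogonal. -/
def SARStmt : Prop := ∀ (K : Set E3) (b : OrthonormalBasis (Fin 3) ℝ E3) (φ : ℝ),
  IsConvexBody K → IsoPos K → SymAff (coordE b ⁻¹' K) φ → SymR K (dirE b φ) (dirE b (φ + π / 2))

/-- SRA: the converse. -/
def SRAStmt : Prop := ∀ (K : Set E3) (b : OrthonormalBasis (Fin 3) ℝ E3) (φ : ℝ),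
  IsConvexBody K → SymR K (dirE b φ) (dirE b (φ + π / 2)) → SymAff (coordE b ⁻¹' K) φ

/-- CLY: the symmetric pairs form a closed set. -/
def CLYStmt : Prop := ∀ K : Set E3, IsConvexBody K →
  IsClosed {p : E3 × E3 | OP p.1 p.2 ∧ SymR K p.1 p.2}

/-- G2S: an open set of symmetries gives all. -/
def G2SStmt : Prop := ∀ (K : Set E3) (u w w' : E3), OP u w → OP u w' → ⟪w, w'⟫ = 0 →
  (interior {ψ : ℝ | SymR K u (Real.cos ψ • w + Real.sin ψ • w')}).Nonempty →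
  ∀ ψ : ℝ, SymR K u (Real.cos ψ • w + Real.sin ψ • w')

/-- HTN: half-turns. -/
def HTNStmt : Prop := ∀ (K : Set E3) (n : E3), IsConvexBody K → ‖n‖ = 1 →
  (∀ u w, OP u w → ⟪n, u⟫ = 0 → ⟪n, w⟫ = 0 → SymR K u w) → ∀ x ∈ K, (2 * ⟪n, x⟫) • n - x ∈ K

/-- G3S: infinitely many half-turns give a plane of symmetry. -/
def G3SStmt : Prop := ∀ K : Set E3, IsConvexBody K →
  {n : E3 | ‖n‖ = 1 ∧ ∀ x ∈ K, (2 * ⟪n, x⟫) • n - x ∈ K}.Infinite →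
  Pool.Agent.H61.TX.SymmetryPlane K

/-- SEG: directions without boundary segments are dense. -/
def SEGStmt : Prop := ∀ (K : Set E3) (u : E3) (ε : ℝ), IsConvexBody K → ‖u‖ = 1 → 0 < ε →
  ∃ v : E3, ‖v‖ = 1 ∧ ‖v - u‖ < ε ∧ NoSegU K v

/-- NSU: the same in coordinates. -/
def NSUStmt : Prop := ∀ (K : Set E3) (b : OrthonormalBasis (Fin 3) ℝ E3), IsConvexBody K →
  NoSegU K (b 0) → NSH (coordE b ⁻¹' K) 0

/-- CHU: the choice of `u`. -/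
def CHUStmt : Prop := ∀ K : Set E3, IsConvexBody K → ¬ Pool.Agent.H61.TX.SymmetryPlane K →
  ∃ u : E3, ‖u‖ = 1 ∧ NoSegU K u ∧
    (∀ n : E3, ‖n‖ = 1 → ⟪n, u⟫ = 0 → ∃ v w, OP v w ∧ ⟪n, v⟫ = 0 ∧ ⟪n, w⟫ = 0 ∧ ¬ SymR K v w) ∧
    ∃ w, OP u w ∧ ¬ SymR K u w

/-- MRG: uniform marginals. -/
def MRGStmt : Prop := ∀ (S : Set ℂ) (f : ℂ → ℝ) (D : Set ℝ), Convex ℝ S → IsCompact S →
  (interior S).Nonempty → (∀ z, 0 ≤ f z) → ContinuousOn f (interior S) →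
  (∀ z ∈ interior S, 0 < f z) → (∀ z, z ∉ interior S → f z = 0) → Dense D →
  (∀ ψ ∈ D, ∃ c : ℝ≥0∞, c ≠ ⊤ ∧ ∀ h : ℝ, (∃ z ∈ interior S, tc ψ z = h) →
    ∫⁻ s : ℝ, ENNReal.ofReal (f ((h : ℂ) * (Complex.I * e ψ) + s * e ψ)) = c) →
  ∀ ψ : ℝ, ∃ c₀ c₁ : ℝ, ∀ h t : ℝ,
    f ((h : ℂ) * (Complex.I * e ψ) + ((c₀ + c₁ * h + t : ℝ) : ℂ) * e ψ) =
      f ((h : ℂ) * (Complex.I * e ψ) + ((c₀ + c₁ * h - t : ℝ) : ℂ) * e ψ)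

/-- MRK: constant times give symmetries. -/
def MRKStmt : Prop := ∀ (K : Set E3) (u w w' : E3) (D : Set ℝ), IsConvexBody K → OP u w →
  OP u w' → ⟪w, w'⟫ = 0 → Dense D →
  (∀ ψ ∈ D, ∀ b : OrthonormalBasis (Fin 3) ℝ E3, b 0 = u →
    b 1 = Real.cos ψ • w + Real.sin ψ • w' → b 2 = -Real.sin ψ • w + Real.cos ψ • w' →
    ∃ c : ℝ≥0∞, c ≠ ⊤ ∧ ∀ h ∈ Hts (coordE b ⁻¹' K), Tm (Cq (coordE b ⁻¹' K) h) 0 = c) →
  ∀ (ψ : ℝ) (b : OrthonormalBasis (Fin 3) ℝ E3), b 0 = u →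
    b 1 = Real.cos ψ • w + Real.sin ψ • w' → b 2 = -Real.sin ψ • w + Real.cos ψ • w' →
    SymAff (coordE b ⁻¹' K) 0

/-- C1A: unverified bodies in isotropic position are `C¹`. -/
def C1AStmt : Prop := ∀ K : Set E3, Unver K → IsoPos K → C1 K

/-- FIN: the theorem. -/
def FINStmt : Prop := ∀ K : Set E3, IsConvexBody K → ∃ u v : sphere (0 : E3) 1,
  LinearIndependent ℝ ![(u : E3), (v : E3)] ∧ Pool.Agent.H61.TX.Verifies u v K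

end Pool.XR2
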