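import Pool.Agent.H52.XR2.Def

/-!
# Project XR2: the statements, planar part (plan: team-store XR2_PLAN_helper52.md)
-/

set_option autoImplicit false

open MeasureTheory Set Filter Topology Metric Asymptotics
open scoped Real ENNReal RealInnerProductSpace

namespace Pool.XR2

open Pool.Agent.H45.XR

/-! ## Part 0: flips and rotation numbers -/

/-- FLX: existence and uniqueness of the flip. -/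
def FLXStmt : Prop := ∀ (C : Set ℂ) (φ : ℝ), Body C → NoSeg C φ →
  IsFlip C φ (fl C φ) ∧ ∀ F, IsFlip C φ F → F = fl C φ

/-- FLB: basic facts on flips. -/
def FLBStmt : Prop := ∀ (C : Set ℂ) (φ : ℝ), Body C → NoSeg C φ →
  Continuous (fl C φ) ∧
  (∀ x, Fx (fl C φ) x ↔ ∀ s : ℝ, pt C x + s * e φ ∈ C → s = 0) ∧
  (∀ x, fl C (φ + π) x = fl C φ x + 2 * π) ∧
  (∀ x, fl C φ x < x → x < fl C φ x + 2 * π →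
    ∃ s : ℝ, 0 < s ∧ pt C x = pt C (fl C φ x) + s * e φ) ∧
  (∀ x, ¬ Fx (fl C φ) x ↔ ∃ κ > 0, Lv C φ κ x) ∧
  (∀ ψ, NoSeg C ψ → Deg1 (TT C φ ψ) ∧ Continuous (TT C φ ψ))

/-- RHA: basic facts on rotation numbers. -/
def RHAStmt : Prop := ∀ T : ℝ → ℝ, Deg1 T →
  (∀ (x : ℝ) (p : ℤ) (q : ℕ), 0 < q → T^[q] x ≤ x + 2 * π * p → rho T ≤ p / q) ∧
  (∀ (x : ℝ) (p : ℤ) (q : ℕ), 0 < q → x + 2 * π * p ≤ T^[q] x → (p : ℝ) / q ≤ rho T) ∧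
  (∀ (x : ℝ) (p : ℤ) (q : ℕ), 0 < q → T^[q] x = x + 2 * π * p → rho T = p / q) ∧
  (∀ (p : ℤ) (q : ℕ), 0 < q → rho T = p / q → ∀ (x : ℝ) (m : ℕ) (k : ℤ), 0 < m →
    T^[m] x = x + 2 * π * k → T^[q] x = x + 2 * π * p) ∧
  (Continuous T → (∀ x, x < T x) → 0 < rho T) ∧
  (Continuous T → (∀ x, T x < x + 2 * π) → rho T < 1) ∧
  (∀ S : ℝ → ℝ, Deg1 S → (∀ x, T x ≤ S x) → rho T ≤ rho S) ∧
  (∀ S G : ℝ → ℝ, Deg1 S → Monotone G → (∀ x, G (x + 2 * π) = G x + 2 * π) →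
    (∀ x, G (T x) = S (G x)) → rho T = rho S)

/-- RHC: continuity of the rotation number. -/
def RHCStmt : Prop := ∀ (T : ℕ → ℝ → ℝ) (S : ℝ → ℝ), (∀ n, Deg1 (T n)) → Deg1 S → Continuous S →
  (∀ x, Tendsto (fun n => T n x) atTop (𝓝 (S x))) →
  Tendsto (fun n => rho (T n)) atTop (𝓝 (rho S))

/-- FLC: continuity of flips. -/
def FLCStmt : Prop := ∀ (C : ℕ → Set ℂ) (D : Set ℂ) (φ : ℕ → ℝ) (ψ : ℝ) (x : ℕ → ℝ) (y : ℝ),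
  (∀ n, Body (C n)) → (∀ n, NoSeg (C n) (φ n)) → Body D → NoSeg D ψ → BLim C D →
  Tendsto φ atTop (𝓝 ψ) → Tendsto x atTop (𝓝 y) →
  Tendsto (fun n => fl (C n) (φ n) (x n)) atTop (𝓝 (fl D ψ y))

/-- RCN: continuity of the rotation number of a body. -/
def RCNStmt : Prop := ∀ (C : ℕ → Set ℂ) (D : Set ℂ) (φ₀ φ₁ : ℕ → ℝ) (ψ₀ ψ₁ : ℝ),
  (∀ n, Body (C n)) → (∀ n, NoSeg (C n) (φ₀ n)) → (∀ n, NoSeg (C n) (φ₁ n)) → Body D →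
  NoSeg D ψ₀ → NoSeg D ψ₁ → BLim C D → Tendsto φ₀ atTop (𝓝 ψ₀) → Tendsto φ₁ atTop (𝓝 ψ₁) →
  Tendsto (fun n => rot (C n) (φ₀ n) (φ₁ n)) atTop (𝓝 (rot D ψ₀ ψ₁))

/-- LNA: invariance under diagonal maps. -/
def LNAStmt : Prop := ∀ (C : Set ℂ) (φ₀ φ₁ φ₀' φ₁' ψ a b s₀ s₁ : ℝ), Body C → NoSeg C φ₀ →
  NoSeg C φ₁ → φ₀ < φ₁ → φ₁ < φ₀ + π → φ₀' < φ₁' → φ₁' < φ₀' + π → 0 < a → 0 < b → 0 < s₀ →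
  0 < s₁ → Dg ψ a b (e φ₀) = s₀ * e φ₀' → Dg ψ a b (e φ₁) = s₁ * e φ₁' →
  Body (Dg ψ a b '' C) ∧ NoSeg (Dg ψ a b '' C) φ₀' ∧ NoSeg (Dg ψ a b '' C) φ₁' ∧
  rot (Dg ψ a b '' C) φ₀' φ₁' = rot C φ₀ φ₁

/-- LNB: invariance under translations. -/
def LNBStmt : Prop := ∀ (C : Set ℂ) (φ₀ φ₁ : ℝ) (z : ℂ), Body C → NoSeg C φ₀ → NoSeg C φ₁ →
  φ₀ < φ₁ → φ₁ < φ₀ + π → z ∈ interior C →
  Body (tr C z) ∧ NoSeg (tr C z) φ₀ ∧ NoSeg (tr C z) φ₁ ∧ rot (tr C z) φ₀ φ₁ = rot C φ₀ φ₁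

/-- SXL: equality of X-rays under diagonal maps. -/
def SXLStmt : Prop := ∀ (C C' : Set ℂ) (φ φ' ψ a b s : ℝ), SameX C C' φ → 0 < a → 0 < b → 0 < s →
  Dg ψ a b (e φ) = s * e φ' → SameX (Dg ψ a b '' C) (Dg ψ a b '' C') φ'

/-- CPT: compactness. -/
def CPTStmt : Prop := ∀ (r R : ℝ) (C : ℕ → Set ℂ), 0 < r → (∀ n, Bd r R (C n)) →
  ∃ (D : Set ℂ) (σ : ℕ → ℕ), StrictMono σ ∧ Bd r R D ∧ BLim (fun n => C (σ n)) D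

/-- SXC: equality of X-rays passes to the limit. -/
def SXCStmt : Prop := ∀ (C C' : ℕ → Set ℂ) (D D' : Set ℂ) (φ : ℕ → ℝ) (ψ : ℝ),
  (∀ n, Body (C n)) → (∀ n, Body (C' n)) → Body D → Body D' → BLim C D → BLim C' D' →
  Tendsto φ atTop (𝓝 ψ) → (∀ n, SameX (C n) (C' n) (φ n)) → SameX D D' ψ

/-- INB: a convex set with centroid `0` contains a ball. -/
def INBStmt : Prop := ∀ R V : ℝ, 0 < V → ∃ r > 0, ∀ C : Set ℂ, Convex ℝ C → IsCompact C →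
  C ⊆ closedBall 0 R → ENNReal.ofReal V ≤ volume C → ∫ z in C, z = 0 → Bd r R C

/-- BDD: mates are bounded. -/
def BDDStmt : Prop := ∀ r R δ : ℝ, 0 < r → 0 < δ → ∃ r' > 0, ∃ R' > 0, ∀ (C C' : Set ℂ)
  (φ₀ φ₁ : ℝ), Bd r R C → PM C C' φ₀ φ₁ → δ ≤ φ₁ - φ₀ → φ₁ - φ₀ ≤ π - δ → ∫ z in C, z = 0 →
  Bd r' R' C'

/-- MNF: the flip is monotone in the direction. -/
def MNFStmt : Prop := ∀ (C : Set ℂ) (φ φ' x : ℝ), Body C → NoSeg C φ → NoSeg C φ' → φ < φ' →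
  fl C φ x ≤ fl C φ' x ∧ (¬ Fx (fl C φ) x ∨ ¬ Fx (fl C φ') x → fl C φ x < fl C φ' x)

/-- DIR: lower bound for the speed of the flip in the direction. -/
def DIRStmt : Prop := ∀ r R κ : ℝ, 0 < r → 0 < κ → ∃ c > 0, ∀ (C : Set ℂ) (φ φ' x : ℝ),
  Bd r R C → NoSeg C φ → NoSeg C φ' → φ ≤ φ' → φ' ≤ φ + π → (Lv C φ κ x ∨ Lv C φ' κ x) →
  c * (φ' - φ) ≤ fl C φ' x - fl C φ x

/-! ## Part A1: planar mates -/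

/-- WFL: the flips of `C`, `C'` and `C ∩ C'`. -/
def WFLStmt : Prop := ∀ (C C' : Set ℂ) (φ : ℝ), Body C → Body C' → SameX C C' φ → NoSeg C φ →
  Body (C ∩ C') ∧ NoSeg (C ∩ C') φ ∧ NoSeg C' φ ∧
  (∀ x ∈ EE C C', fl (C ∩ C') φ x ∈ EE C C') ∧
  (∀ x ∈ EE C C', ¬ Fx (fl (C ∩ C') φ) x → fl C φ x = fl (C ∩ C') φ x ∧
    fl C' φ x = fl (C ∩ C') φ x) ∧
  (∀ x, Fx (fl (C ∩ C') φ) x → x ∈ EE C C') ∧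
  (∀ x ∈ EE C C', Fx (fl C φ) x → Fx (fl (C ∩ C') φ) x ∧ fl C φ x = fl (C ∩ C') φ x) ∧
  (∀ x ∈ EE C C', Fx (fl (C ∩ C') φ) x → ¬ Fx (fl C φ) x →
    ∃ δ > 0, ∀ y ∈ EE C C', |y - x| < δ → y = x) ∧
  (∀ x ∈ EE C C', Psi C C' (fl (C ∩ C') φ x) = Psi C C' x)

/-- ARC: combinatorial structure. -/
def ARCStmt : Prop := ∀ (C C' : Set ℂ) (φ₀ φ₁ : ℝ), PM C C' φ₀ φ₁ → C ≠ C' →
  ∃ (M : ℕ) (v : ℤ → ℝ) (c₀ c₁ : ℤ), ArcS C C' φ₀ φ₁ M v c₀ c₁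

/-- CMP: the rotation number of the intersection is `e / M`, and comparison with `C`. -/
def CMPStmt : Prop := ∀ (C C' : Set ℂ) (φ₀ φ₁ : ℝ) (M : ℕ) (v : ℤ → ℝ) (c₀ c₁ : ℤ),
  PM C C' φ₀ φ₁ → ArcS C C' φ₀ φ₁ M v c₀ c₁ →
  rot (C ∩ C') φ₀ φ₁ = ((c₁ - c₀ : ℤ) : ℝ) / M ∧
  (8 < M → rot C φ₀ φ₁ ≤ ((c₁ - c₀ : ℤ) : ℝ) / ((M : ℝ) - 8))

/-- GAP: end points of gaps have closed chains. -/
def GAPStmt : Prop := ∀ (C C' : Set ℂ) (φ₀ φ₁ : ℝ), PM C C' φ₀ φ₁ → C ≠ C' →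
  ∀ (p : ℤ) (q : ℕ), 0 < q → rot (C ∩ C') φ₀ φ₁ = p / q →
  ∀ a ∈ EE C C', ∀ b ∈ EE C C', a < b → Ioo a b ∩ EE C C' = ∅ →
    (TT (C ∩ C') φ₀ φ₁)^[q] a = a + 2 * π * p ∧ (TT (C ∩ C') φ₀ φ₁)^[q] b = b + 2 * π * p

/-- NLM: a null lemma. -/
def NLMStmt : Prop := ∀ (E : Set ℝ) (f : ℝ → ℝ),
  (∀ x ∈ E, ∀ ε > 0, ∃ δ > 0, ∀ y ∈ E, x < y → y < x + δ → |f y - f x| ≤ ε * (y - x)) →
  volume (f '' E) = 0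

/-- ODE: from area to displacement. -/
def ODEStmt : Prop := ∀ (Ψ ψ S : ℝ → ℝ) (x η B : ℝ), 0 < η → 0 ≤ B →
  (∀ z, HasDerivAt Ψ (ψ z) z) → Continuous ψ → Monotone S →
  (∀ z ∈ uIcc x (S x), |z - x| < η →
    (∀ y ∈ uIcc z (S z), ψ y ≠ 0) ∧ |Ψ (S z) - Ψ z| ≤ B * ψ z ^ 2) →
  2 * B * |ψ x| < η → |S x - x| ≤ 2 * B * |ψ x|

/-- PSA: change of the area along a chord of `C`. -/
def PSAStmt : Prop := ∀ r R κ : ℝ, 0 < r → 0 < κ → ∃ ε > 0, ∃ B > 0, ∀ (C C' : Set ℂ) (φ x : ℝ),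
  Bd r R C → Bd r R C' → SameX C C' φ → NoSeg C φ → Lv C φ κ x →
  |rad C' x - rad C x| ≤ ε → |rad C' (fl C φ x) - rad C (fl C φ x)| ≤ ε →
  |Psi C C' (fl C φ x) - Psi C C' x| ≤ B * (rad C' x - rad C x) ^ 2 ∧
  |rad C' (fl C φ x) - rad C (fl C φ x)| ≤ B * |rad C' x - rad C x|

/-- GFL: the flip of `C` follows the gaps. -/
def GFLStmt : Prop := ∀ r R κ : ℝ, 0 < r → 0 < κ → ∃ ε > 0, ∀ (C C' : Set ℂ) (φ x a b : ℝ),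
  Bd r R C → Bd r R C' → SameX C C' φ → NoSeg C φ → Lv C φ κ x →
  |rad C' x - rad C x| ≤ ε → |rad C' (fl C φ x) - rad C (fl C φ x)| ≤ ε →
  a ∈ EE C C' → b ∈ EE C C' → a < x → x < b → Ioo a b ∩ EE C C' = ∅ →
  fl (C ∩ C') φ b < fl C φ x ∧ fl C φ x < fl (C ∩ C') φ a

/-- DSU: the displacement of `C` outside `EE`, uniform version. -/
def DSUStmt : Prop := ∀ (r R κ : ℝ) (q : ℕ), 0 < r → 0 < κ → 0 < q → ∃ ε > 0, ∃ B > 0,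
  ∀ (C C' : Set ℂ) (φ₀ φ₁ : ℝ) (p : ℤ) (x η : ℝ), Bd r R C → Bd r R C' → PM C C' φ₀ φ₁ →
  rot (C ∩ C') φ₀ φ₁ = p / q → x ∉ EE C C' → 0 < η →
  (∀ z, |z - x| < η → Gd C φ₀ φ₁ q κ z ∧ ∀ n ≤ 2 * q,
    |rad C' (orbC C φ₀ φ₁ z n) - rad C (orbC C φ₀ φ₁ z n)| ≤ ε) →
  B * |rad C' x - rad C x| < η → |dsp C φ₀ φ₁ p q x| ≤ B * |rad C' x - rad C x|

/-- DSP: the displacement of `C` outside `EE` near a good point of `EE`. -/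
def DSPStmt : Prop := ∀ (C C' : Set ℂ) (φ₀ φ₁ : ℝ) (p : ℤ) (q : ℕ) (z : ℝ), PM C C' φ₀ φ₁ →
  0 < q → rot (C ∩ C') φ₀ φ₁ = p / q → (∃ κ > 0, Gd C φ₀ φ₁ q κ z) →
  (∀ n ≤ 2 * q, orbC C φ₀ φ₁ z n ∈ EE C C') →
  ∃ δ > 0, ∃ B > 0, ∀ x, |x - z| < δ → x ∉ EE C C' →
    |dsp C φ₀ φ₁ p q x| ≤ B * |rad C' x - rad C x|

/-- LD1: one-sided accumulation. -/
def LD1Stmt : Prop := ∀ (C C' : Set ℂ) (z : ℝ), Body C → Body C' → z ∈ EE C C' →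
  (AccR (EE C C') z → (fun x => rad C' x - rad C x) =o[𝓝[>] z] (fun x => x - z)) ∧
  (AccL (EE C C') z → (fun x => rad C' x - rad C x) =o[𝓝[<] z] (fun x => x - z))

/-- LDF: accumulation on one side and a differentiable X-ray. -/
def LDFStmt : Prop := ∀ (C C' : Set ℂ) (φ z : ℝ), Body C → Body C' → SameX C C' φ → NoSeg C φ →
  z ∈ EE C C' → ¬ Fx (fl C φ) z → DifferentiableAt ℝ (xr C φ) (tc φ (pt C z)) →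
  (AccR (EE C C') z ∨ AccL (EE C C') z) →
  (fun x => rad C' x - rad C x) =o[𝓝 z] (fun x => x - z)

/-- XND: countably many points where the X-ray is not differentiable. -/
def XNDStmt : Prop := ∀ (C : Set ℂ) (φ : ℝ), Body C → NoSeg C φ →
  {z : ℝ | ¬ Fx (fl C φ) z ∧ ¬ DifferentiableAt ℝ (xr C φ) (tc φ (pt C z))}.Countable

/-- CN1: for a given starting point at most one direction `φ₁` gives a closed tip-free chain. -/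
def CN1Stmt : Prop := ∀ (C : Set ℂ) (φ₀ z : ℝ) (p : ℤ) (q : ℕ), Body C → NoSeg C φ₀ → 0 < q →
  {φ₁ : ℝ | φ₀ < φ₁ ∧ φ₁ < φ₀ + π ∧ NoSeg C φ₁ ∧ (∃ κ > 0, Gd C φ₀ φ₁ q κ z) ∧
    dsp C φ₀ φ₁ p q z = 0}.Subsingleton

/-- CN2: the same for chains which start at a tip of `φ₀`. -/
def CN2Stmt : Prop := ∀ (C : Set ℂ) (φ₀ z : ℝ) (p : ℤ) (q : ℕ), Body C → NoSeg C φ₀ → 0 < p →
  p < q → Fx (fl C φ₀) z →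
  {φ₁ : ℝ | φ₀ < φ₁ ∧ φ₁ < φ₀ + π ∧ NoSeg C φ₁ ∧ dsp C φ₀ φ₁ p q z = 0}.Subsingleton

/-- FLN: flat closed chains occur only for a null set of directions. -/
def FLNStmt : Prop := ∀ (C : Set ℂ) (φ₀ : ℝ), Body C → NoSeg C φ₀ →
  volume {φ₁ : ℝ | φ₀ < φ₁ ∧ φ₁ < φ₀ + π ∧ NoSeg C φ₁ ∧
    ∃ (p : ℤ) (q : ℕ) (z : ℝ), FlatR C φ₀ φ₁ p q z} = 0

/-- A8T: a topological lemma. -/
def A8TStmt : Prop := ∀ (E A : Set ℝ), IsClosed E → (∀ x, x ∈ E ↔ x + 2 * π ∈ E) → E ≠ univ →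
  (interior E).Nonempty → A.Finite →
  (∀ z, (AccR E z ∨ AccL E z) → (∃ δ > 0, ∀ y, z < y → y < z + δ → ¬ (AccR E y ∨ AccL E y)) →
    ∃ a ∈ A, ∃ k : ℤ, z = a + k * (2 * π)) →
  ∃ c a : ℝ, c < a ∧ Icc c a ⊆ E ∧ ∃ δ > 0, ∀ y, a < y → y < a + δ → ¬ (AccR E y ∨ AccL E y)

/-- A8D: the interior of `EE` is empty, deterministic version. -/
def A8DStmt : Prop := ∀ (C C' : Set ℂ) (φ₀ φ₁ : ℝ), PM C C' φ₀ φ₁ → C ≠ C' →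
  (∀ (p : ℤ) (q : ℕ) (z : ℝ), ¬ FlatR C φ₀ φ₁ p q z) →
  (∀ (p : ℤ) (q : ℕ) (z : ℝ), 0 < q → ¬ Fx (fl C φ₀) z →
    ¬ DifferentiableAt ℝ (xr C φ₀) (tc φ₀ (pt C z)) → (∃ κ > 0, Gd C φ₀ φ₁ q κ z) →
    dsp C φ₀ φ₁ p q z ≠ 0) →
  (∀ (p : ℤ) (q : ℕ) (z : ℝ), 0 < p → p < q → Fx (fl C φ₀) z → dsp C φ₀ φ₁ p q z ≠ 0) →
  interior (EE C C') = ∅

/-- AE8: the interior of `EE` is empty for almost all `φ₁`. -/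
def AE8Stmt : Prop := ∀ (C : Set ℂ) (φ₀ : ℝ), Body C → NoSeg C φ₀ →
  ∀ᵐ φ₁ : ℝ, φ₀ < φ₁ → φ₁ < φ₀ + π → NoSeg C φ₁ → ∀ C', PM C C' φ₀ φ₁ → C ≠ C' →
    interior (EE C C') = ∅

/-- UDP: uniform displacement for close mates. -/
def UDPStmt : Prop := ∀ (r R κ : ℝ) (q : ℕ) (η : ℝ), 0 < r → 0 < κ → 0 < q → 0 < η →
  ∃ ε > 0, ∃ B > 0, ∀ (C C' : Set ℂ) (φ₀ φ₁ : ℝ) (p : ℤ), Bd r R C → Bd r R C' →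
  PM C C' φ₀ φ₁ → rot (C ∩ C') φ₀ φ₁ = p / q → interior (EE C C') = ∅ →
  (∀ θ, |rad C' θ - rad C θ| ≤ ε) → ∀ x, (∀ z, |z - x| < η → Gd C φ₀ φ₁ q κ z) →
  |dsp C φ₀ φ₁ p q x| ≤ B * |rad C' x - rad C x|

/-! ## Part B: planar mates for close directions -/

/-- SMR: small rotation numbers. -/
def SMRStmt : Prop := ∀ (C : Set ℂ) (φ θ D w : ℝ), Body C → NoSeg C φ → NoSeg C (φ + θ) →
  0 < θ → θ < π / 2 → (∀ p ∈ C, ∀ q ∈ C, ‖p - q‖ ≤ D) → (∃ p ∈ C, ∃ q ∈ C, w ≤ tc φ q - tc φ p) →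
  0 < w → 100 * D * Real.sin θ ≤ w → rot C φ (φ + θ) ≤ 4 * D * Real.sin θ / w

/-- SLP: the slope of a mate. -/
def SLPStmt : Prop := ∀ r R : ℝ, 0 < r → ∃ A > 0, ∃ θ₀ > 0, ∀ (C C' : Set ℂ) (φ θ : ℝ),
  Bd r R C → ∫ z in C, z = 0 → PM C C' φ (φ + θ) → θ < θ₀ →
  (∀ z ∈ C', |yc φ z| ≤ A) ∨
  (∀ z ∈ C', |yc φ z - 2 * (Real.cos θ / Real.sin θ) * tc φ z| ≤ A)

/-- TLA: bounded mates are close. -/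
def TLAStmt : Prop := ∀ r R A ε : ℝ, 0 < r → 0 < ε → ∃ θ₀ > 0, ∀ (C C' : Set ℂ) (φ θ : ℝ),
  Bd r R C → ∫ z in C, z = 0 → PM C C' φ (φ + θ) → θ < θ₀ → (∀ z ∈ C', |yc φ z| ≤ A) →
  ∀ α, |rad C' α - rad C α| ≤ ε

/-- PRL: a rotation number `1/2`. -/
def PRLStmt : Prop := ∀ (C : Set ℂ) (φ₀ φ₁ : ℝ) (p q : ℂ), Body C → NoSeg C φ₀ → NoSeg C φ₁ →
  φ₀ < φ₁ → φ₁ < φ₀ + π → p ∈ C → q ∈ C → (∀ z ∈ C, tc φ₀ p ≤ tc φ₀ z ∧ tc φ₀ z ≤ tc φ₀ q) →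
  tc φ₁ p = tc φ₁ q → rot C φ₀ φ₁ = 1 / 2

/-- TLB: steep mates, rotation number. -/
def TLBStmt : Prop := ∀ r R A ε : ℝ, 0 < r → 0 < ε → ∃ θ₀ > 0, ∀ (C C' : Set ℂ) (φ θ : ℝ),
  Bd r R C → ∫ z in C, z = 0 → PM C C' φ (φ + θ) → θ < θ₀ →
  (∀ z ∈ C', |yc φ z - 2 * (Real.cos θ / Real.sin θ) * tc φ z| ≤ A) →
  |rot (C ∩ C') φ (φ + θ) - 1 / 2| ≤ ε

/-- TLC: steep mates, symmetry. -/
def TLCStmt : Prop := ∀ r R A ε : ℝ, 0 < r → 0 < ε → ∃ θ₀ > 0, ∀ (C C' : Set ℂ) (φ θ : ℝ),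
  Bd r R C → ∫ z in C, z = 0 → PM C C' φ (φ + θ) → θ < θ₀ →
  (∀ z ∈ C', |yc φ z - 2 * (Real.cos θ / Real.sin θ) * tc φ z| ≤ A) →
  ∀ t : ℝ, |(volume (C ∩ {z | tc φ z ≤ t})).toReal -
    (volume (C ∩ {z | -t ≤ tc φ z})).toReal| ≤ ε

/-- TWL: the dichotomy for close directions. -/
def TWLStmt : Prop := ∀ r R ε : ℝ, 0 < r → 0 < ε → ∃ θ₀ > 0, ∀ (C C' : Set ℂ) (φ θ : ℝ),
  Bd r R C → ∫ z in C, z = 0 → PM C C' φ (φ + θ) → θ < θ₀ →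
  ((∀ α, |rad C' α - rad C α| ≤ ε) ∧ rot (C ∩ C') φ (φ + θ) ≤ ε) ∨
  (|rot (C ∩ C') φ (φ + θ) - 1 / 2| ≤ ε ∧ (∀ z ∈ C', |θ * yc φ z - 2 * tc φ z| ≤ ε) ∧
    ∀ t : ℝ, |(volume (C ∩ {z | tc φ z ≤ t})).toReal -
      (volume (C ∩ {z | -t ≤ tc φ z})).toReal| ≤ ε)

/-- CMT: bodies with a common tip. -/
def CMTStmt : Prop := ∀ (C : Set ℂ) (φ κ A : ℝ) (c : ℂ), Body C → NoSeg C φ → 0 < κ → c ∈ C →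
  (∀ z ∈ C, |yc φ (z - c)| ≤ κ * tc φ (z - c)) →
  ∃ θ₀ > 0, ∀ (θ : ℝ) (C' : Set ℂ), θ < θ₀ → PM C C' φ (φ + θ) → (∀ z ∈ C', |yc φ z| ≤ A) →
    rot (C ∩ C') φ (φ + θ) = 0

/-- LOW: rotation numbers of inner approximations are at most `θ / Tm`. -/
def LOWStmt : Prop := ∀ (C : Set ℂ) (W : ℕ → Set ℂ) (φ : ℝ) (θ : ℕ → ℝ), Body C →
  NoSeg C φ → (∀ n, Body (W n)) → (∀ n, W n ⊆ C) → BLim W C → (∀ n, NoSeg (W n) φ) →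
  (∀ n, NoSeg (W n) (φ + θ n)) → (∀ n, 0 < θ n) → Tendsto θ atTop (𝓝 0) →
  ∀ L : ℝ, 0 ≤ L → ENNReal.ofReal L < Tm C φ → ∀ᶠ n in atTop, L * rot (W n) φ (φ + θ n) ≤ θ n

/-- UPP: rotation numbers of a body with blunt tips are at least `θ / Tm`. -/
def UPPStmt : Prop := ∀ (C : Set ℂ) (φ : ℝ) (θ : ℕ → ℝ), Body C → NoSeg C φ → Fast C φ →
  (∀ n, NoSeg C (φ + θ n)) → (∀ n, 0 < θ n) → Tendsto θ atTop (𝓝 0) → Tm C φ ≠ ⊤ ∧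
  ∀ L : ℝ, Tm C φ < ENNReal.ofReal L → ∀ᶠ n in atTop, θ n ≤ L * rot C φ (φ + θ n)

/-- POS: rotation numbers of `C¹` bodies are not integral. -/
def POSStmt : Prop := ∀ (C C' : Set ℂ) (φ₀ φ₁ : ℝ), PM C C' φ₀ φ₁ → C1 C →
  0 < rot (C ∩ C') φ₀ φ₁ ∧ rot (C ∩ C') φ₀ φ₁ < 1

/-- ELO: elongated bodies have rotation numbers near `0` or `1/2`. -/
def ELOStmt : Prop := ∀ (C C' : ℕ → Set ℂ) (φ₀ φ₁ : ℝ) (ψ : ℕ → ℝ) (ψ' : ℝ) (d w : ℕ → ℝ),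
  (∀ n, PM (C n) (C' n) φ₀ φ₁) → (∀ n, ∫ z in C n, z = 0) → Tendsto ψ atTop (𝓝 ψ') →
  (∀ x ∈ Icc φ₀ φ₁, ∀ k : ℤ, ψ' ≠ x + k * π) →
  (∀ n, 0 < d n ∧ (∀ p ∈ C n, ∀ q ∈ C n, ‖p - q‖ ≤ d n) ∧
    ∃ p ∈ C n, ∃ q ∈ C n, q - p = (d n : ℂ) * e (ψ n)) →
  (∀ n, ∀ p ∈ C n, ∀ q ∈ C n, |tc (ψ n) (p - q)| ≤ w n) →
  Tendsto (fun n => w n / d n) atTop (𝓝 0) →
  ∀ ε > 0, ∀ᶠ n in atTop, rot (C n ∩ C' n) φ₀ φ₁ < ε ∨ |rot (C n ∩ C' n) φ₀ φ₁ - 1 / 2| < ε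

end Pool.XR2
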