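import Pool.Agent.H52.XR2.S1

set_option autoImplicit false

open MeasureTheory Set Filter Topology Metric Asymptotics
open scoped Real ENNReal RealInnerProductSpace

namespace Pool.XR2

open Pool.Agent.H45.XR

theorem t_a8t : A8TStmt := by
  intro E A hE hper hne hint hA hz
  have hpi := Real.pi_pos
  -- a point outside, to the right of an interior point
  obtain ⟨u, hu⟩ := hint
  have hper' : ∀ (x : ℝ) (k : ℕ), x ∈ E ↔ x + k * (2 * π) ∈ E := by
    intro x k
    induction k with
    | zero => simp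
    | succ n ih =>
      rw [ih, hper]
      have : x + n * (2 * π) + 2 * π = x + ((n + 1 : ℕ) : ℝ) * (2 * π) := by push_cast; ring
      rw [this]
  obtain ⟨v, hvE, huv⟩ : ∃ v, v ∉ E ∧ u < v := by
    obtain ⟨v, hv⟩ := (ne_univ_iff_exists_notMem E).1 hne
    obtain ⟨k, hk⟩ := exists_nat_gt ((u - v) / (2 * π))
    refine ⟨v + k * (2 * π), fun h => hv ((hper' v k).2 h), ?_⟩
    rw [div_lt_iff₀ (by positivity)] at hk
    linarith
  set S : Set ℝ := {x | u ≤ x ∧ Icc u x ⊆ E} with hS
  have huS : u ∈ S := ⟨le_rfl, by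
    rw [Icc_self]; exact singleton_subset_iff.2 (interior_subset hu)⟩
  have hSv : ∀ x ∈ S, x < v := by
    intro x hx
    by_contra h
    exact hvE (hx.2 ⟨huv.le, not_lt.1 h⟩)
  have hbdd : BddAbove S := ⟨v, fun x hx => (hSv x hx).le⟩
  set a := sSup S with ha
  have hIco : Ico u a ⊆ E := by
    intro x hx
    obtain ⟨y, hy, hxy⟩ := exists_lt_of_lt_csSup ⟨u, huS⟩ hx.2
    exact hy.2 ⟨hx.1, hxy.le⟩
  have hua : u < a := by
    obtain ⟨ε, hε, hb⟩ := Metric.isOpen_iff.1 isOpen_interior u hu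
    have : u + ε / 2 ∈ S := by
      refine ⟨by linarith, fun x hx => interior_subset (hb ?_)⟩
      rw [mem_ball, Real.dist_eq, abs_lt]
      constructor <;> linarith [hx.1, hx.2]
    have := le_csSup hbdd this
    linarith
  have hIcc : Icc u a ⊆ E := by
    have h1 : closure (Ico u a) = Icc u a := closure_Ico hua.ne
    rw [← h1]
    exact closure_minimal hIco hE
  have hout : ∀ δ > 0, ∃ w, w ∉ E ∧ a < w ∧ w < a + δ := by
    intro δ hδ
    by_contra hcon
    push Not at hcon
    have : a + δ / 2 ∈ S := by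
      refine ⟨by linarith, fun x hx => ?_⟩
      by_contra hxE
      rcases le_or_gt x a with h | h
      · exact hxE (hIcc ⟨hx.1, h⟩)
      · have := hcon x hxE h
        linarith [hx.2]
    have := le_csSup hbdd this
    linarith
  refine ⟨u, a, hua, hIcc, ?_⟩
  by_contra hcon
  push Not at hcon
  -- good points arbitrarily near on the right
  have hgood : ∀ δ > 0, ∃ z, a < z ∧ z < a + δ ∧ (AccR E z ∨ AccL E z) ∧
      ∃ δ' > 0, ∀ y, z < y → y < z + δ' → ¬ (AccR E y ∨ AccL E y) := by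
    intro δ hδ
    obtain ⟨w, hwE, haw, hwδ⟩ := hout δ hδ
    obtain ⟨y₁, hy1, hy2, hy3⟩ := hcon (w - a) (by linarith)
    have hy2' : y₁ < w := by linarith
    -- near `w` there are no points of `E`
    obtain ⟨ε, hε, hb⟩ := Metric.isOpen_iff.1 hE.isOpen_compl w hwE
    have hnear : ∀ y, |y - w| < ε / 2 → ¬ (AccR E y ∨ AccL E y) := by
      intro y hy hacc
      have hy' := abs_lt.1 hy
      rcases hacc with h | h
      · obtain ⟨e, he, he1, he2⟩ := h (ε / 2) (by linarith)
        refine hb (?_ : e ∈ ball w ε) he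
        rw [mem_ball, Real.dist_eq, abs_lt]
        constructor <;> linarith [hy'.1, hy'.2]
      · obtain ⟨e, he, he1, he2⟩ := h (ε / 2) (by linarith)
        refine hb (?_ : e ∈ ball w ε) he
        rw [mem_ball, Real.dist_eq, abs_lt]
        constructor <;> linarith [hy'.1, hy'.2]
    set Q : Set ℝ := {y | y ≤ w ∧ (AccR E y ∨ AccL E y)} with hQ
    have hyQ : y₁ ∈ Q := ⟨hy2'.le, hy3⟩
    have hQb : BddAbove Q := ⟨w, fun x hx => hx.1⟩
    set z := sSup Q with hzdef
    have hz1 : y₁ ≤ z := le_csSup hQb hyQ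
    have hz2 : z ≤ w := csSup_le ⟨y₁, hyQ⟩ fun x hx => hx.1
    have hzacc : AccR E z ∨ AccL E z := by
      by_contra hno
      have hno' := hno
      push Not at hno'
      apply hno'.2
      intro η hη
      obtain ⟨y, hyq, hyz⟩ := exists_lt_of_lt_csSup ⟨y₁, hyQ⟩ (show z - η < z by linarith)
      have hyz' : y < z := by
        refine lt_of_le_of_ne (le_csSup hQb hyq) ?_
        rintro rfl
        exact hno hyq.2
      rcases hyq.2 with h | h
      · obtain ⟨e, he, he1, he2⟩ := h (z - y) (by linarith)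
        exact ⟨e, he, by linarith, by linarith⟩
      · obtain ⟨e, he, he1, he2⟩ := h (y - (z - η)) (by linarith)
        exact ⟨e, he, by linarith, by linarith⟩
    have hzw : z < w := by
      rcases eq_or_lt_of_le hz2 with h | h
      · exfalso
        refine hnear z ?_ hzacc
        rw [h]; simpa using hε
      · exact h
    refine ⟨z, by linarith, by linarith, hzacc, w - z, by linarith, fun y hy1' hy2' hacc => ?_⟩
    have : y ∈ Q := ⟨by linarith, hacc⟩
    have := le_csSup hQb this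
    linarith
  -- finiteness
  set Z : Set ℝ := {z | a < z ∧ z < a + 1 ∧ (AccR E z ∨ AccL E z) ∧
      ∃ δ' > 0, ∀ y, z < y → y < z + δ' → ¬ (AccR E y ∨ AccL E y)} with hZ
  have hZfin : Z.Finite := by
    have hsub : Z ⊆ ⋃ x ∈ A, (fun k : ℤ => x + k * (2 * π)) ''
        (Icc ⌊(a - x) / (2 * π)⌋ ⌈(a + 1 - x) / (2 * π)⌉) := by
      rintro z ⟨h1, h2, h3, h4⟩
      obtain ⟨x, hx, k, hk⟩ := hz z h3 h4
      rw [mem_iUnion₂]
      refine ⟨x, hx, k, ⟨?_, ?_⟩, hk.symm⟩
      · have h5 : (a - x) / (2 * π) ≤ k := by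
          rw [div_le_iff₀ (by positivity)]; linarith
        have h6 : ((⌊(a - x) / (2 * π)⌋ : ℤ) : ℝ) ≤ k := (Int.floor_le _).trans h5
        exact_mod_cast h6
      · have h5 : (k : ℝ) ≤ (a + 1 - x) / (2 * π) := by
          rw [le_div_iff₀ (by positivity)]; linarith
        have h6 : (k : ℝ) ≤ ((⌈(a + 1 - x) / (2 * π)⌉ : ℤ) : ℝ) := h5.trans (Int.le_ceil _)
        exact_mod_cast h6
    exact (hA.biUnion fun x _ => ((Set.finite_Icc _ _).image _)).subset hsub
  obtain ⟨z₁, h1, h2, h3, h4⟩ := hgood 1 one_pos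
  have hne' : Z.Nonempty := ⟨z₁, h1, h2, h3, h4⟩
  obtain ⟨z₀, hz₀, hmin⟩ := hZfin.exists_minimal hne'
  obtain ⟨z₂, g1, g2, g3, g4⟩ := hgood (min 1 (z₀ - a)) (lt_min one_pos (by linarith [hz₀.1]))
  have hz₂ : z₂ ∈ Z := ⟨g1, by have := min_le_left 1 (z₀ - a); linarith, g3, g4⟩
  have hlt : z₂ < z₀ := by have := min_le_right 1 (z₀ - a); linarith
  have := hmin hz₂ hlt.le
  linarith

end Pool.XR2
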