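import Pool.Agent.H52.XR2.S1

set_option autoImplicit false

open MeasureTheory Set Filter Topology Metric Asymptotics
open scoped Real ENNReal RealInnerProductSpace

namespace Pool.XR2

open Pool.Agent.H45.XR

lemma countable_fx {C : Set ℂ} {φ : ℝ} {F : ℝ → ℝ} (hF : IsFlip C φ F) :
    {z : ℝ | Fx F z}.Countable := by
  have : {z : ℝ | Fx F z} = ⋃ k : ℤ, {z : ℝ | F z = z + k * (2 * π)} := by
    ext z; simp [Fx]
  rw [this]
  refine countable_iUnion fun k => Set.Subsingleton.countable ?_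
  intro x hx y hy
  simp only [mem_ofPred_eq] at hx hy
  rcases lt_trichotomy x y with h | h | h
  · have := hF.anti h; linarith
  · exact h
  · have := hF.anti h; linarith

theorem t_ae8 (fln : FLNStmt) (cn1 : CN1Stmt) (cn2 : CN2Stmt) (xnd : XNDStmt) (a8d : A8DStmt)
    (flx : FLXStmt) : AE8Stmt := by
  intro C φ₀ hC h0
  have hF := (flx C φ₀ hC h0).1
  have N1 := fln C φ₀ hC h0
  have N2 : (⋃ (p : ℤ) (q : ℕ) (_ : 0 < q), ⋃ z ∈ {z : ℝ | ¬ Fx (fl C φ₀) z ∧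
      ¬ DifferentiableAt ℝ (xr C φ₀) (tc φ₀ (pt C z))}, {φ₁ : ℝ | φ₀ < φ₁ ∧ φ₁ < φ₀ + π ∧
      NoSeg C φ₁ ∧ (∃ κ > 0, Gd C φ₀ φ₁ q κ z) ∧ dsp C φ₀ φ₁ p q z = 0}).Countable :=
    countable_iUnion fun p => countable_iUnion fun q => countable_iUnion fun hq =>
      (xnd C φ₀ hC h0).biUnion fun z _ => (cn1 C φ₀ z p q hC h0 hq).countable
  have N3 : (⋃ (p : ℤ) (q : ℕ) (_ : 0 < p) (_ : p < q), ⋃ z ∈ {z : ℝ | Fx (fl C φ₀) z},
      {φ₁ : ℝ | φ₀ < φ₁ ∧ φ₁ < φ₀ + π ∧ NoSeg C φ₁ ∧ dsp C φ₀ φ₁ p q z = 0}).Countable := by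
    refine countable_iUnion fun p => countable_iUnion fun q => countable_iUnion fun hp =>
      countable_iUnion fun hpq => (countable_fx hF).biUnion fun z hz => ?_
    exact (cn2 C φ₀ z p q hC h0 hp hpq hz).countable
  have M1 := measure_eq_zero_iff_ae_notMem.1 N1
  have M2 := measure_eq_zero_iff_ae_notMem.1 (N2.measure_zero volume)
  have M3 := measure_eq_zero_iff_ae_notMem.1 (N3.measure_zero volume)
  filter_upwards [M1, M2, M3] with φ₁ m1 m2 m3 h01 h10 h1 C' hpm hne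
  refine a8d C C' φ₀ φ₁ hpm hne ?_ ?_ ?_
  · intro p q z hfl
    exact m1 ⟨h01, h10, h1, p, q, z, hfl⟩
  · intro p q z hq hz hd hg hds
    apply m2
    simp only [mem_iUnion]
    exact ⟨p, q, hq, z, ⟨hz, hd⟩, h01, h10, h1, hg, hds⟩
  · intro p q z hp hpq hz hds
    apply m3
    simp only [mem_iUnion]
    exact ⟨p, q, hp, hpq, z, hz, h01, h10, h1, hds⟩

end Pool.XR2
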