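import Pool.Agent.H52.XR2.S1

set_option autoImplicit false

open MeasureTheory Set Filter Topology Metric Asymptotics
open scoped Real ENNReal RealInnerProductSpace

namespace Pool.XR2

open Pool.Agent.H45.XR Pool.Agent.H45.XR.B3

namespace CMTaux

/-- the minimum of `tc ψ` over `C'` is at least the one over `C` -/
lemma min_le {C C' : Set ℂ} {ψ : ℝ} (hC : Body C) (hC' : Body C') (hX : SameX C C' ψ) {c : ℂ}
    (hc : c ∈ C) (hmin : ∀ z ∈ C, tc ψ c ≤ tc ψ z) : ∀ z ∈ C', tc ψ c ≤ tc ψ z := by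
  intro z hz
  by_contra hlt
  push Not at hlt
  have hc0 : tc ψ c ≤ 0 := by
    have := hmin 0 hC.zero_mem
    simpa using this
  -- a point of the interior of `C'` with a smaller level
  have hz0 : tc ψ z < 0 := hlt.trans_le hc0
  obtain ⟨s, hs0, hs1, hs2⟩ : ∃ s : ℝ, 0 < s ∧ s < 1 ∧ (1 - s) * tc ψ z < tc ψ c := by
    refine ⟨(tc ψ c - tc ψ z) / (2 * (- tc ψ z)), div_pos (by linarith) (by linarith), ?_, ?_⟩
    · rw [div_lt_one (by linarith)]; linarith
    · have h1 : (tc ψ c - tc ψ z) / (2 * (- tc ψ z)) * tc ψ z = -(tc ψ c - tc ψ z) / 2 := by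
        have : tc ψ z ≠ 0 := hz0.ne
        field_simp
      have h2 : (1 - (tc ψ c - tc ψ z) / (2 * (- tc ψ z))) * tc ψ z =
          tc ψ z + (tc ψ c - tc ψ z) / 2 := by
        rw [sub_mul, h1]; ring
      rw [h2]; linarith
  have hint : (1 - s) • z + s • (0 : ℂ) ∈ interior C' :=
    hC'.conv.combo_self_interior_mem_interior hz hC'.zero (by linarith) hs0 (by ring)
  have hpos := xray_pos (φ := ψ) hint
  rw [← hX] at hpos
  obtain ⟨t, ht⟩ := nonempty_of_measure_ne_zero hpos.ne'
  have h3 := hmin _ ht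
  rw [tc_add, tc_mul, tc_e_self, mul_zero, add_zero, tc_add, tc_smul, tc_smul, tc_zero] at h3
  linarith

/-- the minimum is attained -/
lemma exists_min {C C' : Set ℂ} {ψ : ℝ} (hC : Body C) (hC' : Body C') (hX : SameX C C' ψ) {c : ℂ}
    (hc : c ∈ C) (hmin : ∀ z ∈ C, tc ψ c ≤ tc ψ z) : ∃ z ∈ C', tc ψ z = tc ψ c := by
  obtain ⟨z, hz, hz'⟩ := hC'.cpt.exists_isMinOn ⟨0, hC'.zero_mem⟩
    (continuous_tc ψ).continuousOn
  have h1 : ∀ w ∈ C', tc ψ z ≤ tc ψ w := fun w hw => hz' hw
  have h2 := min_le hC' hC (sameX_symm hX) hz h1 c hc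
  have h3 := min_le hC hC' hX hc hmin z hz
  exact ⟨z, hz, le_antisymm h2 h3⟩

end CMTaux

open CMTaux

theorem t_cmt (flx : FLXStmt) (rha : RHAStmt) (flb : FLBStmt) (wfl : WFLStmt) : CMTStmt := by
  intro C φ κ A c hC hn hκ hc hcor
  have hpi := Real.pi_pos
  -- the level of `0`
  have hmin0 : ∀ z ∈ C, tc φ c ≤ tc φ z := by
    intro z hz
    have h1 := hcor z hz
    have h2 := abs_nonneg (yc φ (z - c))
    have h3 : 0 ≤ κ * tc φ (z - c) := h2.trans h1
    have h4 : 0 ≤ tc φ (z - c) := by
      by_contra h5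
      push Not at h5
      nlinarith
    rw [tc_sub] at h4
    linarith
  have hw : tc φ c < 0 := by
    obtain ⟨δ, hδ, hδ1, hb⟩ := push (d := -(Complex.I * e φ)) hC.zero
    have h1 := interior_subset (hb δ (abs_of_pos hδ).le)
    have h2 := hmin0 _ h1
    have h3 : tc φ (0 + (δ : ℂ) * -(Complex.I * e φ)) = -δ := by
      have h4 : (0 + (δ : ℂ) * -(Complex.I * e φ)) = ((-δ : ℝ) : ℂ) * (Complex.I * e φ) := by
        push_cast; ring
      rw [h4, tc_mul]
      have h5 : Complex.I * e φ = e (φ + π / 2) := by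
        rw [e_add]
        have : e (π / 2) = Complex.I := by
          rw [e_eq]; apply Complex.ext <;> simp
        rw [this]; ring
      rw [h5, tc_e]
      have : φ + π / 2 - φ = π / 2 := by ring
      rw [this, Real.sin_pi_div_two]; ring
    rw [h3] at h2
    linarith
  set w := - tc φ c with hwdef
  have hw0 : 0 < w := by linarith
  set Y := |yc φ c| with hY
  have hY0 : 0 ≤ Y := abs_nonneg _
  set K := 3 * κ + Y / w + (|A| + Y) / w + 1 with hK
  have hKpos : 1 ≤ K := by
    have : 0 ≤ Y / w := by positivity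
    have : 0 ≤ (|A| + Y) / w := by positivity
    rw [hK]; linarith
  refine ⟨min 1 (1 / (2 * K)), by positivity, ?_⟩
  intro θ C' hθ hpm hA
  have hθ0 : 0 < θ := by have := hpm.h01; linarith
  have hθ1 : θ < 1 := hθ.trans_le (min_le_left _ _)
  have hθK : θ < 1 / (2 * K) := hθ.trans_le (min_le_right _ _)
  have hcos : 1 / 2 ≤ Real.cos θ := by
    have := Real.one_sub_sq_div_two_le_cos (x := θ)
    nlinarith
  have hsin0 : 0 < Real.sin θ := Real.sin_pos_of_pos_of_lt_pi hθ0 (by linarith [Real.pi_gt_three])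
  have hKs : K * Real.sin θ < Real.cos θ := by
    have h1 : Real.sin θ ≤ θ := Real.sin_le hθ0.le
    have h2 : K * θ < 1 / 2 := by
      rw [lt_div_iff₀ (by positivity)] at hθK
      linarith
    nlinarith
  -- `c` is minimal for the second direction
  have hmin1 : ∀ z ∈ C, tc (φ + θ) c ≤ tc (φ + θ) z := by
    intro z hz
    have h1 := hcor z hz
    have h2 := (abs_le.1 h1).2
    have h3 : 0 ≤ tc φ (z - c) := by have := hmin0 z hz; rw [tc_sub]; linarith
    have h4 : 0 ≤ tc (φ + θ) (z - c) := by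
      rw [tc_rot]
      have h5 : Real.sin θ * yc φ (z - c) ≤ Real.sin θ * (κ * tc φ (z - c)) :=
        mul_le_mul_of_nonneg_left h2 hsin0.le
      have h6 : κ * Real.sin θ ≤ Real.cos θ := by
        have : κ ≤ K := by
          have : 0 ≤ Y / w := by positivity
          have : 0 ≤ (|A| + Y) / w := by positivity
          rw [hK]; linarith
        nlinarith
      have h7 : κ * Real.sin θ * tc φ (z - c) ≤ Real.cos θ * tc φ (z - c) :=
        mul_le_mul_of_nonneg_right h6 h3
      nlinarith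
    rw [tc_sub] at h4
    linarith
  have hC' := hpm.b'
  have m0 := min_le hC hC' hpm.x0 hc hmin0
  have m1 := min_le hC hC' hpm.x1 hc hmin1
  obtain ⟨z₀, hz₀, e0⟩ := exists_min hC hC' hpm.x0 hc hmin0
  obtain ⟨z₁, hz₁, e1⟩ := exists_min hC hC' hpm.x1 hc hmin1
  -- coordinates
  have hy0 : yc φ (z₀ - c) ≤ 0 := by
    have h1 := m1 z₀ hz₀
    have h2 : 0 ≤ tc (φ + θ) (z₀ - c) := by rw [tc_sub]; linarith
    rw [tc_rot] at h2
    have h3 : tc φ (z₀ - c) = 0 := by rw [tc_sub]; linarith
    rw [h3] at h2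
    by_contra h4
    push Not at h4
    nlinarith
  have ht1 : 0 ≤ tc φ (z₁ - c) := by have := m0 z₁ hz₁; rw [tc_sub]; linarith
  have heq : Real.cos θ * tc φ (z₁ - c) = Real.sin θ * yc φ (z₁ - c) := by
    have h2 : tc (φ + θ) (z₁ - c) = 0 := by rw [tc_sub]; linarith
    rw [tc_rot] at h2
    linarith
  set t₁ := tc φ (z₁ - c) with ht₁
  set y₁ := yc φ (z₁ - c) with hy₁
  have ht10 : t₁ = 0 := by
    by_contra hne
    have hpos : 0 < t₁ := lt_of_le_of_ne ht1 (Ne.symm hne)
    rcases lt_or_ge w t₁ with hcase | hcase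
    · -- high: boundedness
      have h1 : y₁ ≤ |A| + Y := by
        have h2 := hA z₁ hz₁
        have h3 := (abs_le.1 h2).2
        have h4 : y₁ = yc φ z₁ - yc φ c := by rw [hy₁, yc_sub]
        have h5 := neg_abs_le (yc φ c)
        have h6 := le_abs_self A
        rw [h4]; linarith
      have h2 : w * Real.cos θ < Real.sin θ * (|A| + Y) := by
        have h3 : w * Real.cos θ < t₁ * Real.cos θ := by nlinarith
        have h4 : Real.sin θ * y₁ ≤ Real.sin θ * (|A| + Y) := mul_le_mul_of_nonneg_left h1 hsin0.le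
        nlinarith
      have h3 : (|A| + Y) / w ≤ K := by
        have : 0 ≤ Y / w := by positivity
        rw [hK]; linarith
      rw [div_le_iff₀ hw0] at h3
      nlinarith
    · -- low: convexity
      set lam := t₁ / w with hlam
      have hl0 : 0 < lam := by positivity
      have hl1 : lam ≤ 1 := by rw [hlam, div_le_one hw0]; exact hcase
      have hlw : lam * w = t₁ := by rw [hlam]; field_simp
      set p₂ : ℂ := (1 - lam) • z₀ + lam • (0 : ℂ) with hp₂
      have hp₂C : p₂ ∈ C' := hC'.conv hz₀ hC'.zero_mem (by linarith) hl0.le (by ring)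
      have htp : tc φ p₂ = tc φ z₁ := by
        have h1 : tc φ p₂ = (1 - lam) * tc φ z₀ := by
          rw [hp₂, tc_add, tc_smul, tc_smul, tc_zero]; ring
        have h2 : tc φ z₁ = t₁ + tc φ c := by rw [ht₁, tc_sub]; ring
        rw [h1, h2, e0, ← hlw]
        have : tc φ c = -w := by rw [hwdef]; ring
        rw [this]; ring
      have hyp : yc φ (p₂ - c) ≤ lam * Y := by
        have h1 : yc φ (p₂ - c) = (1 - lam) * yc φ (z₀ - c) + lam * (- yc φ c) := by
          rw [yc_sub, yc_sub, hp₂, yc_add, yc_smul, yc_smul, yc_zero]; ring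
        rw [h1]
        have h2 : (1 - lam) * yc φ (z₀ - c) ≤ 0 := mul_nonpos_of_nonneg_of_nonpos (by linarith) hy0
        have h3 : - yc φ c ≤ Y := neg_le_abs _
        have h4 : lam * (- yc φ c) ≤ lam * Y := mul_le_mul_of_nonneg_left h3 hl0.le
        linarith
      -- the chord of `C'` through `z₁`
      have hchord : y₁ - yc φ (p₂ - c) ≤ 2 * κ * t₁ := by
        by_contra hcon
        push Not at hcon
        set d := y₁ - yc φ (p₂ - c) with hd
        have hd0 : 0 < d := by nlinarith
        have hp₂z : p₂ = z₁ + ((-d : ℝ) : ℂ) * e φ := by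
          have h1 := eq_add_of_tc_eq htp
          rw [h1]
          congr 2
          have : yc φ p₂ - yc φ z₁ = -d := by
            rw [hd, hy₁, yc_sub, yc_sub]; ring
          rw [this]
        have hsub : Icc (-d) 0 ⊆ {s : ℝ | z₁ + s * e φ ∈ C'} := by
          intro s hs
          have h1 : (s / (-d)) • p₂ + (1 - s / (-d)) • z₁ ∈ C' := by
            refine hC'.conv hp₂C hz₁ ?_ ?_ (by ring)
            · exact div_nonneg_of_nonpos hs.2 (by linarith)
            · have : s / (-d) ≤ 1 := by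
                rw [div_le_one_of_neg (by linarith)]
                exact hs.1
              linarith
          have h2 : (s / (-d)) • p₂ + (1 - s / (-d)) • z₁ = z₁ + s * e φ := by
            rw [hp₂z]
            have hdne : (d : ℂ) ≠ 0 := by exact_mod_cast hd0.ne'
            simp only [Complex.real_smul]
            push_cast
            field_simp
            ring
          rw [h2] at h1
          exact h1
        have hsub' : {s : ℝ | z₁ + s * e φ ∈ C} ⊆ Icc (-κ * t₁ - y₁) (κ * t₁ - y₁) := by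
          intro s hs
          have h1 := hcor _ hs
          have h2 : tc φ (z₁ + s * e φ - c) = t₁ := by
            rw [ht₁, tc_sub, tc_sub, tc_add, tc_mul, tc_e_self]; ring
          have h3 : yc φ (z₁ + s * e φ - c) = y₁ + s := by
            rw [hy₁, yc_sub, yc_sub, yc_add, yc_mul, yc_e_self]; ring
          rw [h2, h3] at h1
          have h4 := abs_le.1 h1
          constructor
          · linarith [h4.1]
          · linarith [h4.2]
        have v1 := measure_mono (μ := volume) hsub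
        have v2 := measure_mono (μ := volume) hsub'
        rw [Real.volume_Icc] at v1 v2
        rw [hpm.x0 z₁] at v2
        have v3 := v1.trans v2
        rw [ENNReal.ofReal_le_ofReal_iff (by nlinarith)] at v3
        linarith
      have h1 : y₁ ≤ (2 * κ + Y / w) * t₁ := by
        have : lam * Y = Y / w * t₁ := by rw [hlam]; ring
        linarith
      have h2 : Real.cos θ * t₁ ≤ Real.sin θ * ((2 * κ + Y / w) * t₁) := by
        rw [heq]; exact mul_le_mul_of_nonneg_left h1 hsin0.le
      have h3 : 2 * κ + Y / w ≤ K := by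
        have : 0 ≤ (|A| + Y) / w := by positivity
        rw [hK]; linarith
      have h4 : Real.sin θ * (2 * κ + Y / w) < Real.cos θ := by nlinarith
      nlinarith
  have hy10 : y₁ = 0 := by
    rw [ht10, mul_zero] at heq
    rcases mul_eq_zero.1 heq.symm with h | h
    · exact absurd h hsin0.ne'
    · exact h
  have hcC' : c ∈ C' := by
    have h1 : tc φ z₁ = tc φ c := by rw [ht₁, tc_sub] at ht10; linarith
    have h2 : yc φ z₁ - yc φ c = 0 := by rw [hy₁, yc_sub] at hy10; exact hy10
    have h3 := eq_add_of_tc_eq h1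
    rw [h2] at h3
    have : z₁ = c := by simpa using h3
    rw [← this]; exact hz₁
  -- common tip of `W`
  have hn1 := hpm.n1
  obtain ⟨hW, hWn0, -⟩ := wfl C C' φ hC hC' hpm.x0 hpm.n0
  obtain ⟨-, hWn1, -⟩ := wfl C C' (φ + θ) hC hC' hpm.x1 hn1
  have hcW : c ∈ C ∩ C' := ⟨hc, hcC'⟩
  have key : ∀ ψ, NoSeg (C ∩ C') ψ → (∀ z ∈ C ∩ C', tc ψ c ≤ tc ψ z) →
      ∃ r, ψ - π < r ∧ r < ψ ∧ fl (C ∩ C') ψ r = r ∧ pt (C ∩ C') r = c := by
    intro ψ hnψ hm
    obtain ⟨r, hr1, hr2, hr3, hr4⟩ := (flx _ ψ hW hnψ).1.rt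
    refine ⟨r, hr1, hr2, hr3, ?_⟩
    by_contra hne
    have h1 : tc ψ (pt (C ∩ C') r) = tc ψ c :=
      le_antisymm (hr4 c hcW) (hm _ (pt_mem hW r))
    obtain ⟨z, hz, hz'⟩ := hnψ _ (pt_mem hW r) c hcW hne h1
    -- an interior point of minimal level is impossible
    obtain ⟨δ, hδ, hδ1, hb⟩ := push (d := -(Complex.I * e ψ)) hz
    have h2 := interior_subset (hb δ (abs_of_pos hδ).le)
    have h3 := hr4 _ h2
    have h5 : Complex.I * e ψ = e (ψ + π / 2) := by
      rw [e_add]
      have : e (π / 2) = Complex.I := by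
        rw [e_eq]; apply Complex.ext <;> simp
      rw [this]; ring
    have h6 : tc ψ (Complex.I * e ψ) = 1 := by
      rw [h5, tc_e]
      have : ψ + π / 2 - ψ = π / 2 := by ring
      rw [this, Real.sin_pi_div_two]
    have h7 : z + (δ : ℂ) * -(Complex.I * e ψ) = z + ((-δ : ℝ) : ℂ) * (Complex.I * e ψ) := by
      push_cast; ring
    rw [h7, tc_add, tc_mul, h6, hz'] at h3
    linarith
  obtain ⟨r, hr1, hr2, hr3, hr4⟩ := key φ hWn0 fun z hz => hmin0 z hz.1
  obtain ⟨r', hr1', hr2', hr3', hr4'⟩ := key (φ + θ) hWn1 fun z hz => hmin1 z hz.1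
  obtain ⟨k, hk⟩ := pt_eq hW (hr4.trans hr4'.symm)
  have hk0 : k = 0 := by
    have h1 : |(k : ℝ) * (2 * π)| < 2 * π := by
      rw [abs_lt]
      have h2 := hpm.h10
      constructor <;> linarith
    rw [abs_mul, abs_of_pos (by positivity : 0 < 2 * π)] at h1
    have h2 : |(k : ℝ)| < 1 := by
      by_contra h3
      push Not at h3
      nlinarith
    have h3 : |k| < 1 := by exact_mod_cast h2
    rwa [Int.abs_lt_one_iff] at h3
  have hrr : r = r' := by rw [hk, hk0]; simp
  have hT : TT (C ∩ C') φ (φ + θ) r = r := by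
    unfold TT
    rw [hr3, hrr, hr3']
  have hdeg := ((flb _ φ hW hWn0).2.2.2.2.2 (φ + θ) hWn1).1
  have := (rha _ hdeg).2.2.1 r 0 1 one_pos (by simpa using hT)
  unfold rot
  rw [this]
  simp

end Pool.XR2
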