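import Pool.Agent.H52.XR2.S2

set_option autoImplicit false

open MeasureTheory Set Filter Topology Metric Asymptotics
open scoped Real ENNReal RealInnerProductSpace

namespace Pool.XR2

open Pool.Agent.H45.XR

namespace CRTaux

/-- reflection of the heights -/
def rf (K : Set (ℂ × ℝ)) : Set (ℂ × ℝ) := {p | (p.1, -p.2) ∈ K}

lemma rf_rf (K : Set (ℂ × ℝ)) : rf (rf K) = K := by
  ext p; simp [rf]

/-- the reflection as a homeomorphism -/
noncomputable def rfH : (ℂ × ℝ) ≃ₜ (ℂ × ℝ) :=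
  (Homeomorph.refl ℂ).prodCongr (Homeomorph.neg ℝ)

lemma rf_eq (K : Set (ℂ × ℝ)) : rf K = rfH ⁻¹' K := rfl

lemma interior_rf (K : Set (ℂ × ℝ)) : interior (rf K) = rf (interior K) := by
  rw [rf_eq, rf_eq]; exact (rfH.preimage_interior K).symm

lemma body_rf {K : Set (ℂ × ℝ)} (h : Body3 K) : Body3 (rf K) := by
  refine ⟨?_, ?_, ?_⟩
  · intro p hp q hq a b ha hb hab
    have := h.conv (show (p.1, -p.2) ∈ K from hp) (show (q.1, -q.2) ∈ K from hq) ha hb hab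
    have e : a • (p.1, -p.2) + b • (q.1, -q.2) = ((a • p + b • q).1, -(a • p + b • q).2) := by
      apply Prod.ext
      · simp
      · simp; ring
    rw [e] at this
    exact this
  · rw [rf_eq]; exact rfH.isCompact_preimage.mpr h.cpt
  · rw [interior_rf]
    obtain ⟨p, hp⟩ := h.ne
    exact ⟨(p.1, -p.2), by simpa [rf] using hp⟩

lemma hts_rf (K : Set (ℂ × ℝ)) (h : ℝ) : h ∈ Hts (rf K) ↔ -h ∈ Hts K := by
  unfold Hts
  simp only [mem_ofPred_eq, interior_rf]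
  rfl

lemma sec_rf (K : Set (ℂ × ℝ)) (h : ℝ) : sec (rf K) h = sec K (-h) := rfl

lemma cq_rf (K : Set (ℂ × ℝ)) (h : ℝ) : Cq (rf K) h = Cq K (-h) := rfl

lemma nsh_rf {K : Set (ℂ × ℝ)} {φ : ℝ} (h : NSH K φ) : NSH (rf K) φ := by
  intro h' hh
  rw [hts_rf] at hh
  rw [cq_rf]
  exact h _ hh

lemma mate_rf {K K' : Set (ℂ × ℝ)} {φ₀ φ₁ : ℝ} (h : Mate K K' φ₀ φ₁) :
    Mate (rf K) (rf K') φ₀ φ₁ :=
  ⟨body_rf h.body, fun t => h.x0 (-t), fun t => h.x1 (-t)⟩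

lemma rot3_rf (K K' : Set (ℂ × ℝ)) (φ₀ φ₁ h : ℝ) :
    rot3 (rf K) (rf K') φ₀ φ₁ h = rot3 K K' φ₀ φ₁ (-h) := rfl

lemma tr_inj {S S' : Set ℂ} {z : ℂ} (h : tr S z = tr S' z) : S = S' := by
  ext w
  have : w - z ∈ tr S z ↔ w - z ∈ tr S' z := by rw [h]
  simpa [tr] using this

/-- the conclusion of FHD for a given pair of directions -/
def FH (K : Set (ℂ × ℝ)) (φ₀ φ₁ : ℝ) : Prop := ∀ K', Mate K K' φ₀ φ₁ →
  ∀ (y δ : ℝ) (p : ℤ) (q : ℕ), 0 < δ → 0 < p → p < q → y ∈ ZZ K K' →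
  (AccR (ZZ K K') y ∨ AccL (ZZ K K') y) →
  (∀ h, y < h → h < y + δ → h ∈ Hts K ∧ rot3 K K' φ₀ φ₁ h = p / q) →
  (∀ h ∈ ZZ K K', y < h → h < y + δ → ∃ ε > 0, ∀ h' ∈ ZZ K K', |h' - h| < ε → h' = h) → False

/-- rational value at bad heights -/
lemma bad_rat (arc : ARCStmt) (cmp : CMPStmt) (pmh : PMHStmt) {K K' : Set (ℂ × ℝ)} {φ₀ φ₁ : ℝ}
    (hK : Body3 K) (hm : Mate K K' φ₀ φ₁) (h01 : φ₀ < φ₁) (h10 : φ₁ < φ₀ + π)
    (n0 : NSH K φ₀) (n1 : NSH K φ₁) {h : ℝ} (hh : h ∈ Hts K) (hz : h ∉ ZZ K K') :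
    ∃ (p : ℤ) (q : ℕ), 0 < p ∧ p < q ∧ rot3 K K' φ₀ φ₁ h = p / q := by
  obtain ⟨-, hp⟩ := pmh K K' φ₀ φ₁ hK hm h01 h10 n0 n1
  obtain ⟨-, hpm, -⟩ := hp h hh
  have hne : Cq K h ≠ Cq K' h := fun he => hz ⟨hh, he.symm⟩
  obtain ⟨M, v, c₀, c₁, hA⟩ := arc _ _ _ _ hpm hne
  refine ⟨c₁ - c₀, M, by have := hA.e2; omega, by have := hA.eM; omega, ?_⟩
  exact (cmp _ _ _ _ M v c₀ c₁ hpm hA).1

lemma zz_closed (pmh : PMHStmt) {K K' : Set (ℂ × ℝ)} {φ₀ φ₁ : ℝ}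
    (hK : Body3 K) (hm : Mate K K' φ₀ φ₁) (h01 : φ₀ < φ₁) (h10 : φ₁ < φ₀ + π)
    (n0 : NSH K φ₀) (n1 : NSH K φ₁) {h : ℝ} (hh : h ∈ Hts K) (hz : h ∉ ZZ K K') :
    ∃ ε > 0, ∀ h', |h' - h| < ε → h' ∉ ZZ K K' := by
  obtain ⟨hH, hp⟩ := pmh K K' φ₀ φ₁ hK hm h01 h10 n0 n1
  by_contra hcon
  push Not at hcon
  have h1 : ∀ n : ℕ, ∃ u : ℝ, |u - h| < 1 / ((n : ℝ) + 1) ∧ u ∈ ZZ K K' := by
    intro n
    obtain ⟨u, hu, hu'⟩ := hcon (1 / ((n : ℝ) + 1)) (by positivity)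
    exact ⟨u, hu, hu'⟩
  choose u hu hu' using h1
  have hlim : Tendsto u atTop (𝓝 h) := by
    rw [tendsto_iff_dist_tendsto_zero]
    refine squeeze_zero (fun n => dist_nonneg) (fun n => ?_)
      (tendsto_one_div_add_atTop_nhds_zero_nat (𝕜 := ℝ))
    rw [Real.dist_eq]
    exact (hu n).le
  have heq : ∀ n, sec K (u n) = sec K' (u n) := by
    intro n
    obtain ⟨h3, h4⟩ := hu' n
    have h5 := (hp _ h3).1
    have h6 : tr (sec K' (u n)) (cen (sec K' (u n))) = tr (sec K (u n)) (cen (sec K (u n))) := h4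
    rw [h5] at h6
    exact (tr_inj h6).symm
  have h7 := sec_eq_of_tendsto hK hm.body hh (by rw [hH]; exact hh) hlim heq
  apply hz
  refine ⟨hh, ?_⟩
  unfold Cq
  rw [h7]

/-- countable range implies constant -/
lemma const_of_countable {f : ℝ → ℝ} {a b : ℝ} (hf : ContinuousOn f (Ioc a b))
    (hc : (f '' Ioc a b).Countable) : ∀ x ∈ Ioc a b, f x = f b := by
  intro x hx
  have h1 : IsPreconnected (f '' Ioc a b) := isPreconnected_Ioc.image f hf
  have h2 := hc.isTotallyDisconnected (f '' Ioc a b) Subset.rfl h1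
  exact h2 ⟨x, hx, rfl⟩ ⟨b, ⟨hx.1.trans_le hx.2, le_rfl⟩, rfl⟩

lemma left_const (rct : RCTStmt) (arc : ARCStmt) (cmp : CMPStmt) (pmh : PMHStmt)
    {K K' : Set (ℂ × ℝ)} {φ₀ φ₁ : ℝ}
    (hK : Body3 K) (hm : Mate K K' φ₀ φ₁) (h01 : φ₀ < φ₁) (h10 : φ₁ < φ₀ + π)
    (n0 : NSH K φ₀) (n1 : NSH K φ₁) (H : FH K φ₀ φ₁) {h₀ h₁ : ℝ} (hh₀ : h₀ ∈ Hts K)
    (hh₁ : h₁ ∈ Hts K) (hlt : h₁ < h₀) (hb : h₀ ∉ ZZ K K') :
    rot3 K K' φ₀ φ₁ h₁ = rot3 K K' φ₀ φ₁ h₀ := by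
  set f := rot3 K K' φ₀ φ₁ with hf
  have hcont := rct K K' φ₀ φ₁ hK hm h01 h10 n0 n1
  obtain ⟨a, b, hab, hHts, -⟩ := Hts_eq hK
  have hsub : ∀ h, h₁ ≤ h → h ≤ h₀ → h ∈ Hts K := by
    intro h h2 h3
    rw [hHts] at hh₀ hh₁ ⊢
    exact ⟨hh₁.1.trans_le h2, h3.trans_lt hh₀.2⟩
  set S : Set ℝ := {y | h₁ ≤ y ∧ y ≤ h₀ ∧ ∀ h ∈ ZZ K K', y < h → h ≤ h₀ →
    ∃ ε > 0, ∀ h' ∈ ZZ K K', |h' - h| < ε → h' = h} with hS
  have h0S : h₀ ∈ S := ⟨hlt.le, le_rfl, fun h _ h2 h3 => absurd h3 (not_le.2 h2)⟩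
  have hbdd : BddBelow S := ⟨h₁, fun y hy => hy.1⟩
  set y := sInf S with hy
  have hy1 : h₁ ≤ y := le_csInf ⟨h₀, h0S⟩ fun z hz => hz.1
  have hy0 : y ≤ h₀ := csInf_le hbdd h0S
  have hiso : ∀ h ∈ ZZ K K', y < h → h ≤ h₀ → ∃ ε > 0, ∀ h' ∈ ZZ K K', |h' - h| < ε → h' = h := by
    intro h hz hyh hh
    obtain ⟨z, hz1, hz2⟩ := exists_lt_of_csInf_lt ⟨h₀, h0S⟩ hyh
    exact hz1.2.2 h hz hz2 hh
  have hyH : y ∈ Hts K := hsub y hy1 hy0
  -- countability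
  have hcount : (ZZ K K' ∩ Ioc y h₀).Countable := by
    refine (countable_setOfPred_isolated_right_within (s := ZZ K K')).mono ?_
    rintro h ⟨hz, hh1, hh2⟩
    refine ⟨hz, ?_⟩
    obtain ⟨ε, hε, he⟩ := hiso h hz hh1 hh2
    rw [← empty_mem_iff_bot, mem_nhdsWithin]
    refine ⟨ball h ε, isOpen_ball, mem_ball_self hε, ?_⟩
    rintro z ⟨hz1, hz2, hz3⟩
    rw [mem_ball, Real.dist_eq] at hz1
    have := he z hz2 hz1
    exact absurd this (ne_of_gt hz3)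
  have himg : (f '' Ioc y h₀).Countable := by
    have hsubs : f '' Ioc y h₀ ⊆ f '' (ZZ K K' ∩ Ioc y h₀) ∪ range ((↑) : ℚ → ℝ) := by
      rintro _ ⟨h, hh, rfl⟩
      by_cases hz : h ∈ ZZ K K'
      · exact Or.inl ⟨h, ⟨hz, hh⟩, rfl⟩
      · right
        obtain ⟨p, q, -, -, hpq⟩ := bad_rat arc cmp pmh hK hm h01 h10 n0 n1
          (hsub h (hy1.trans hh.1.le) hh.2) hz
        refine ⟨(p : ℚ) / q, ?_⟩
        rw [hf, hpq]
        push_cast
        rfl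
    exact ((hcount.image f).union (countable_range _)).mono hsubs
  have hconst := const_of_countable (f := f) (a := y) (b := h₀)
    (hcont.mono fun h hh => hsub h (hy1.trans hh.1.le) hh.2) himg
  rcases eq_or_lt_of_le hy0 with hyy | hyy
  · -- `y = h₀` is impossible: `h₀` is bad
    exfalso
    obtain ⟨ε, hε, he⟩ := zz_closed pmh hK hm h01 h10 n0 n1 hh₀ hb
    have hmem : max h₁ (h₀ - ε / 2) ∈ S := by
      refine ⟨le_max_left _ _, max_le hlt.le (by linarith), ?_⟩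
      intro h hz h2 h3
      exfalso
      refine he h ?_ hz
      have := (le_max_right h₁ (h₀ - ε / 2)).trans_lt h2
      rw [abs_lt]; constructor <;> linarith
    have := csInf_le hbdd hmem
    rw [← hy, hyy] at this
    have h4 : max h₁ (h₀ - ε / 2) < h₀ := max_lt hlt (by linarith)
    linarith
  rcases eq_or_lt_of_le hy1 with hy1' | hy1'
  · -- continuity at `h₁`
    rw [hy1']
    have h2 : Tendsto f (𝓝[>] y) (𝓝 (f y)) := by
      have h3 : ContinuousWithinAt f (Hts K) y := hcont y hyH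
      have h4 : Hts K ∈ 𝓝 y := by
        rw [hHts]
        rw [hHts] at hyH
        exact Ioo_mem_nhds hyH.1 hyH.2
      exact (h3.continuousAt h4).tendsto.mono_left nhdsWithin_le_nhds
    have h3 : Tendsto f (𝓝[>] y) (𝓝 (f h₀)) := by
      refine tendsto_const_nhds.congr' ?_
      filter_upwards [Ioc_mem_nhdsGT hyy] with x hx
      exact (hconst x hx).symm
    exact tendsto_nhds_unique h2 h3
  · exfalso
    -- `y` is in `Z`
    have hyZ : y ∈ ZZ K K' := by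
      by_contra hyZ
      obtain ⟨ε, hε, he⟩ := zz_closed pmh hK hm h01 h10 n0 n1 hyH hyZ
      have hmem : max h₁ (y - ε / 2) ∈ S := by
        refine ⟨le_max_left _ _, max_le hlt.le (by linarith), ?_⟩
        intro h hz h2 h3
        rcases lt_or_ge y h with h4 | h4
        · exact hiso h hz h4 h3
        · exfalso
          refine he h ?_ hz
          have := (le_max_right h₁ (y - ε / 2)).trans_lt h2
          rw [abs_lt]; constructor <;> linarith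
      have := csInf_le hbdd hmem
      have h4 : max h₁ (y - ε / 2) < y := max_lt hy1' (by linarith)
      linarith
    have hacc : ∀ ε > 0, ∃ h' ∈ ZZ K K', |h' - y| < ε ∧ h' ≠ y := by
      by_contra hcon
      push Not at hcon
      obtain ⟨ε, hε, he⟩ := hcon
      have hmem : max h₁ (y - ε / 2) ∈ S := by
        refine ⟨le_max_left _ _, max_le hlt.le (by linarith), ?_⟩
        intro h hz h2 h3
        rcases lt_or_ge y h with h4 | h4
        · exact hiso h hz h4 h3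
        · have h5 := (le_max_right h₁ (y - ε / 2)).trans_lt h2
          have h6 : h = y := he h hz (by rw [abs_lt]; constructor <;> linarith)
          exact ⟨ε, hε, fun h' hz' hd => by rw [h6] at hd ⊢; exact he h' hz' hd⟩
      have := csInf_le hbdd hmem
      have h4 : max h₁ (y - ε / 2) < y := max_lt hy1' (by linarith)
      linarith
    have haccRL : AccR (ZZ K K') y ∨ AccL (ZZ K K') y := by
      by_contra hcon
      push Not at hcon
      obtain ⟨hR, hL⟩ := hcon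
      unfold AccR at hR
      unfold AccL at hL
      push Not at hR hL
      obtain ⟨δ₁, hδ₁, h2⟩ := hR
      obtain ⟨δ₂, hδ₂, h3⟩ := hL
      obtain ⟨h', hz', hd, hne⟩ := hacc (min δ₁ δ₂) (lt_min hδ₁ hδ₂)
      rw [abs_lt] at hd
      rcases lt_or_gt_of_ne hne with h4 | h4
      · have := h3 h' hz' (by have := min_le_right δ₁ δ₂; linarith)
        linarith
      · have := h2 h' hz' h4
        have := min_le_left δ₁ δ₂
        linarith
    obtain ⟨p, q, hp, hpq, hval⟩ := bad_rat arc cmp pmh hK hm h01 h10 n0 n1 hh₀ hb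
    refine H K' hm y (h₀ - y) p q (by linarith) hp hpq hyZ haccRL ?_ ?_
    · intro h h2 h3
      refine ⟨hsub h (hy1.trans h2.le) (by linarith), ?_⟩
      have := hconst h ⟨h2, by linarith⟩
      rw [hf] at this
      rw [this]
      exact hval
    · intro h hz h2 h3
      exact hiso h hz h2 (by linarith)

end CRTaux

open CRTaux

theorem t_crt (fhd : FHDStmt) (nsa : NSAStmt) (rct : RCTStmt) (arc : ARCStmt) (cmp : CMPStmt)
    (pmh : PMHStmt) : CRTStmt := by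
  intro K φ₀ hK n0
  have e1 := fhd K φ₀ hK n0
  have e2 := fhd (rf K) φ₀ (body_rf hK) (nsh_rf n0)
  have e3 := nsa K hK
  filter_upwards [e1, e2, e3] with φ₁ h1 h2 n1 h01 h10
  refine ⟨n1, fun K' hm hne => ?_⟩
  have H1 : FH K φ₀ φ₁ := h1 h01 h10 n1
  have H2 : FH (rf K) φ₀ φ₁ := h2 h01 h10 (nsh_rf n1)
  obtain ⟨hH, hp⟩ := pmh K K' φ₀ φ₁ hK hm h01 h10 n0 n1
  -- a bad height
  have hbad : ∃ h₀ ∈ Hts K, h₀ ∉ ZZ K K' := by
    by_contra hcon
    push Not at hcon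
    apply hne
    refine eq_of_sec_eq hK hm.body hH fun h hh => ?_
    have h4 := (hcon h hh).2
    have h5 := (hp h hh).1
    have h6 : tr (sec K' h) (cen (sec K' h)) = tr (sec K h) (cen (sec K h)) := h4
    rw [h5] at h6
    exact tr_inj h6
  obtain ⟨h₀, hh₀, hb⟩ := hbad
  obtain ⟨p, q, hp0, hpq, hval⟩ := bad_rat arc cmp pmh hK hm h01 h10 n0 n1 hh₀ hb
  refine ⟨rot3 K K' φ₀ φ₁ h₀, ?_, ?_, ?_⟩
  · rw [hval]
    have h3 : (0:ℝ) < p := by exact_mod_cast hp0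
    have h4 : (0:ℝ) < q := by
      have : (0:ℤ) < q := hp0.trans hpq
      exact_mod_cast this
    positivity
  · rw [hval]
    have h4 : (0:ℝ) < q := by
      have : (0:ℤ) < q := hp0.trans hpq
      exact_mod_cast this
    rw [div_lt_one h4]
    exact_mod_cast hpq
  · intro h hh
    rcases lt_trichotomy h h₀ with h5 | h5 | h5
    · exact left_const rct arc cmp pmh hK hm h01 h10 n0 n1 H1 hh₀ hh h5 hb
    · rw [h5]
    · have hz : ∀ t, t ∈ ZZ (rf K) (rf K') ↔ -t ∈ ZZ K K' := by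
        intro t
        unfold ZZ
        simp only [mem_ofPred_eq, hts_rf, cq_rf]
      have := left_const rct arc cmp pmh (body_rf hK) (mate_rf hm) h01 h10 (nsh_rf n0)
        (nsh_rf n1) H2 (h₀ := -h₀) (h₁ := -h) (by rw [hts_rf, neg_neg]; exact hh₀)
        (by rw [hts_rf, neg_neg]; exact hh) (by linarith) (by rw [hz, neg_neg]; exact hb)
      rw [rot3_rf, rot3_rf, neg_neg, neg_neg] at this
      exact this

end Pool.XR2
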