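import Pool.Agent.H52.XR2.S2

set_option autoImplicit false

open MeasureTheory Set Filter Topology Metric Asymptotics
open scoped Real ENNReal RealInnerProductSpace

namespace Pool.XR2

open Pool.Agent.H45.XR

/-- a plane of symmetry gives two independent verifying directions -/
lemma symm_verified {K : Set E3} (hK : IsConvexBody K)
    (h : Pool.Agent.H61.TX.SymmetryPlane K) :
    ∃ u v : sphere (0 : E3) 1, LinearIndependent ℝ ![(u : E3), (v : E3)] ∧
      Pool.Agent.H61.TX.Verifies u v K := by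
  have hK' : Pool.Agent.H61.TX.IsConvexBody K := hK
  obtain ⟨f, c, w, hw, hs⟩ := h
  obtain ⟨u, v, a, ha, rfl, hv, huv⟩ := Pool.Agent.H61.TX.directions f w hw
  refine ⟨u, v, huv, Pool.Agent.H61.TX.main huv hK' ?_⟩
  have hu : a * f (u : E3) = 1 := by rw [map_smul, smul_eq_mul] at hw; exact hw
  have key : ∀ x : E3, ∀ t ∈ Pool.Agent.H61.TX.chord K (u : E3) x,
      (-2 * a * (f x - c)) - t ∈ Pool.Agent.H61.TX.chord K (u : E3) x := by
    intro x t ht
    have h1 := hs _ ht
    have e : x + t • (u : E3) - (2 * (f (x + t • (u : E3)) - c)) • a • (u : E3) =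
        x + ((-2 * a * (f x - c)) - t) • (u : E3) := by
      rw [smul_smul, add_sub_assoc, ← sub_smul, map_add, map_smul, smul_eq_mul]
      congr 2
      linear_combination (-2 * t) * hu
    rw [e] at h1
    exact h1
  intro x s
  refine Pool.Agent.H61.TX.comparable_symm (Pool.Agent.H61.TX.ordConnected_chord hK'.1 _ _)
    (Pool.Agent.H61.TX.ordConnected_chord hK'.1 _ _) (-2 * a * (f x - c)) (key x) ?_
  have := key (x + s • (v : E3))
  simpa [hv] using this

lemma symR_neg {K : Set E3} {u w : E3} (h : SymR K u (-w)) : SymR K u w := by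
  intro x
  have := h x
  have e : x - (2 * ⟪-w, x⟫) • (-w) = x - (2 * ⟪w, x⟫) • w := by
    rw [inner_neg_left]; module
  rwa [e] at this

lemma c1_preimage (b : OrthonormalBasis (Fin 3) ℝ E3) {K : Set E3} (h : C1 K) :
    C1 (coordE b ⁻¹' K) := by
  intro p hp f g hf hg h1 h2
  have hE : ∀ q : ℂ × ℝ, (coordE b).symm (coordE b q) = q := fun q =>
    (coordE b).symm_apply_apply q
  have hE' : ∀ x : E3, coordE b ((coordE b).symm x) = x := fun x =>
    (coordE b).apply_symm_apply x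
  have hf' : f.comp ((coordE b).symm : E3 →L[ℝ] ℂ × ℝ) ≠ 0 := by
    intro h0
    apply hf
    refine ContinuousLinearMap.ext fun q => ?_
    have : f ((coordE b).symm (coordE b q)) = 0 := DFunLike.congr_fun h0 (coordE b q)
    rw [hE] at this
    exact this
  have hg' : g.comp ((coordE b).symm : E3 →L[ℝ] ℂ × ℝ) ≠ 0 := by
    intro h0
    apply hg
    refine ContinuousLinearMap.ext fun q => ?_
    have : g ((coordE b).symm (coordE b q)) = 0 := DFunLike.congr_fun h0 (coordE b q)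
    rw [hE] at this
    exact this
  obtain ⟨c, hc, hcg⟩ := h (coordE b p) hp _ _ hf' hg'
    (by
      intro q hq
      have := h1 ((coordE b).symm q) (by rw [mem_preimage, hE']; exact hq)
      simpa only [ContinuousLinearMap.comp_apply, ContinuousLinearEquiv.coe_coe, hE] using this)
    (by
      intro q hq
      have := h2 ((coordE b).symm q) (by rw [mem_preimage, hE']; exact hq)
      simpa only [ContinuousLinearMap.comp_apply, ContinuousLinearEquiv.coe_coe, hE] using this)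
  refine ⟨c, hc, ContinuousLinearMap.ext fun q => ?_⟩
  have := DFunLike.congr_fun hcg (coordE b q)
  have e1 := hE q
  rw [coordE_apply] at e1
  simpa [e1] using this

/-- a unit vector orthogonal to `b 2` is `dirE b φ` -/
lemma exists_dirE (b : OrthonormalBasis (Fin 3) ℝ E3) {v : E3} (hv : ‖v‖ = 1)
    (h2 : ⟪b 2, v⟫ = 0) : ∃ φ : ℝ, v = dirE b φ := by
  have h := coord_surj b v
  have hn : ⟪b 0, v⟫ ^ 2 + ⟪b 1, v⟫ ^ 2 = 1 := by
    have h1 := b.sum_sq_inner_right v
    rw [Fin.sum_univ_three, hv, h2] at h1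
    linarith [h1]
  set z : ℂ := ⟨⟪b 0, v⟫, ⟪b 1, v⟫⟩ with hz
  have hzn : ‖z‖ = 1 := by
    rw [Complex.norm_eq_sqrt_sq_add_sq, hz]
    simp only
    rw [hn, Real.sqrt_one]
  refine ⟨z.arg, ?_⟩
  have he : e z.arg = z := by
    have := Complex.norm_mul_exp_arg_mul_I z
    rw [hzn] at this
    simpa [e] using this
  rw [dirE, he, ← h, h2]

lemma dirE_zero (b : OrthonormalBasis (Fin 3) ℝ E3) : dirE b 0 = b 0 := by
  rw [dirE_eq]; simp

lemma dirE_half (b : OrthonormalBasis (Fin 3) ℝ E3) : dirE b (0 + π / 2) = b 1 := by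
  rw [dirE_eq]; simp

/-- a unit vector orthogonal to `b 2` and to `dirE b φ` -/
lemma dirE_orth (b : OrthonormalBasis (Fin 3) ℝ E3) {φ : ℝ} {w : E3} (hw : ‖w‖ = 1)
    (h2 : ⟪b 2, w⟫ = 0) (h : ⟪dirE b φ, w⟫ = 0) :
    w = dirE b (φ + π / 2) ∨ w = - dirE b (φ + π / 2) := by
  obtain ⟨ψ, rfl⟩ := exists_dirE b hw h2
  have h0 : ∀ i j : Fin 3, ⟪b i, b j⟫ = if i = j then (1 : ℝ) else 0 :=
    orthonormal_iff_ite.mp b.orthonormal
  have h3 : Real.cos (ψ - φ) = 0 := by
    rw [dirE_eq, dirE_eq] at h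
    simp only [inner_add_left, inner_add_right, inner_smul_left, inner_smul_right, h0] at h
    simp at h
    rw [Real.cos_sub]
    linarith [h]
  have h4 : Real.sin (ψ - φ) = 1 ∨ Real.sin (ψ - φ) = -1 := by
    have := Real.sin_sq_add_cos_sq (ψ - φ)
    rw [h3] at this
    have h5 : (Real.sin (ψ - φ) - 1) * (Real.sin (ψ - φ) + 1) = 0 := by nlinarith
    rcases mul_eq_zero.1 h5 with h6 | h6
    · left; linarith
    · right; linarith
  have h5 : Real.cos ψ = - Real.sin (ψ - φ) * Real.sin φ := by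
    have h7 : ψ = (ψ - φ) + φ := by ring
    conv_lhs => rw [h7]
    rw [Real.cos_add, h3]; ring
  have h6 : Real.sin ψ = Real.sin (ψ - φ) * Real.cos φ := by
    have h7 : ψ = (ψ - φ) + φ := by ring
    conv_lhs => rw [h7]
    rw [Real.sin_add, h3]; ring
  rw [dirE_eq, dirE_eq, Real.cos_add_pi_div_two, Real.sin_add_pi_div_two, h5, h6]
  rcases h4 with h4 | h4
  · left; rw [h4]; module
  · right; rw [h4]; module

/-- extend an orthonormal pair to a basis -/
lemma fin_exists_basis {u w : E3} (h : OP u w) :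
    ∃ b : OrthonormalBasis (Fin 3) ℝ E3, b 0 = u ∧ b 1 = w := by
  obtain ⟨hu, hw, huw⟩ := h
  have hcard : Module.finrank ℝ E3 = Fintype.card (Fin 3) := by simp
  have hv : Orthonormal ℝ (({0, 1} : Set (Fin 3)).domRestrict (![u, w, 0] : Fin 3 → E3)) := by
    rw [orthonormal_iff_ite]
    have huw' : ⟪w, u⟫ = 0 := by rw [real_inner_comm]; exact huw
    rintro ⟨i, hi⟩ ⟨j, hj⟩
    rcases hi with rfl | hi
    · rcases hj with rfl | hj
      · rw [if_pos rfl]
        show ⟪u, u⟫ = 1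
        rw [real_inner_self_eq_norm_sq, hu]; norm_num
      · have : j = 1 := hj
        subst this
        rw [if_neg (by simp)]
        show ⟪u, w⟫ = 0
        exact huw
    · have : i = 1 := hi
      subst this
      rcases hj with rfl | hj
      · rw [if_neg (by simp)]
        show ⟪w, u⟫ = 0
        exact huw'
      · have : j = 1 := hj
        subst this
        rw [if_pos rfl]
        show ⟪w, w⟫ = 1
        rw [real_inner_self_eq_norm_sq, hw]; norm_num
  obtain ⟨b, hb⟩ := hv.exists_orthonormalBasis_extension_of_card_eq hcard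
  exact ⟨b, by rw [hb 0 (by simp)]; rfl, by rw [hb 1 (by simp)]; rfl⟩

/-- the rotated basis -/
lemma exists_rot (b : OrthonormalBasis (Fin 3) ℝ E3) (ψ : ℝ) :
    OP (b 0) (Real.cos ψ • b 1 + Real.sin ψ • b 2) := by
  have h0 : ∀ i j : Fin 3, ⟪b i, b j⟫ = if i = j then (1 : ℝ) else 0 :=
    orthonormal_iff_ite.mp b.orthonormal
  refine ⟨b.orthonormal.1 0, ?_, ?_⟩
  · have h1 : ‖Real.cos ψ • b 1 + Real.sin ψ • b 2‖ ^ 2 = 1 := by
      rw [← real_inner_self_eq_norm_sq]
      simp only [inner_add_left, inner_add_right, inner_smul_left, inner_smul_right, h0]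
      simp
      nlinarith [Real.sin_sq_add_cos_sq ψ]
    have h2 := norm_nonneg (Real.cos ψ • b 1 + Real.sin ψ • b 2)
    nlinarith
  · simp only [inner_add_right, inner_smul_right, h0]
    simp

theorem t_fin (afi : AFIStmt) (c1a : C1AStmt) (chu : CHUStmt) (rnd : RNDStmt) (fst : FSTStmt)
    (unv : UNVStmt) (ktf : KTFStmt) (mrk : MRKStmt) (sar : SARStmt) (g2s : G2SStmt)
    (nsu : NSUStmt) : FINStmt := by
  intro K hK
  by_contra H
  push Not at H
  have hun : Unver K := ⟨hK, H⟩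
  obtain ⟨K₁, hK₁, iso, hun'⟩ := afi K hK
  have hun₁ := hun' hun
  have c1 : C1 K₁ := c1a K₁ hun₁ iso
  have nosym : ¬ Pool.Agent.H61.TX.SymmetryPlane K₁ := by
    intro h
    obtain ⟨u, v, huv, hV⟩ := symm_verified hK₁ h
    exact hun₁.2 u v huv hV
  obtain ⟨u, hu, hns, hn, w, hw, hnw⟩ := chu K₁ hK₁ nosym
  obtain ⟨b, hb0, hb1⟩ := fin_exists_basis hw
  -- all symmetric would be a contradiction
  have hfin : ¬ ∀ ψ : ℝ, SymR K₁ u (Real.cos ψ • w + Real.sin ψ • b 2) := by
    intro h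
    apply hnw
    have := h 0
    simpa using this
  have horth : ⟪w, b 2⟫ = 0 := by
    rw [← hb1]
    exact b.orthonormal.2 (by decide : (1 : Fin 3) ≠ 2)
  have hub2 : OP u (b 2) := by
    refine ⟨hu, b.orthonormal.1 2, ?_⟩
    rw [← hb0]
    exact b.orthonormal.2 (by decide : (0 : Fin 3) ≠ 2)
  set D : Set ℝ := {ψ : ℝ | ¬ SymR K₁ u (Real.cos ψ • w + Real.sin ψ • b 2)} with hD
  have hdense : Dense D := by
    have h1 : interior {ψ : ℝ | SymR K₁ u (Real.cos ψ • w + Real.sin ψ • b 2)} = ∅ := by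
      by_contra h
      exact hfin (g2s K₁ u w (b 2) hw hub2 horth (nonempty_iff_ne_empty.2 h))
    have h2 : D = {ψ : ℝ | SymR K₁ u (Real.cos ψ • w + Real.sin ψ • b 2)}ᶜ := rfl
    rw [h2]
    exact interior_eq_empty_iff_dense_compl.1 h1
  -- roundness for all bases with `b 0 = u`
  have hround : ∀ b : OrthonormalBasis (Fin 3) ℝ E3, b 0 = u → ∃ c > 0, ∃ η > 0, ∀ g : ℂ,
      ‖g‖ < η → ∀ h ∈ Hts (Sg g (coordE b ⁻¹' K₁)), Round c (sec (Sg g (coordE b ⁻¹' K₁)) h) := by
    intro b hb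
    refine rnd _ (body3_preimage b hK₁) (c1_preimage b c1) (unv K₁ hun₁ b) ?_
    obtain ⟨v, w, hvw, hv2, hw2, hns⟩ := hn (b 2) (b.orthonormal.1 2) (by
      rw [← hb]
      exact b.orthonormal.2 (by decide : (2 : Fin 3) ≠ 0))
    obtain ⟨φ, rfl⟩ := exists_dirE b hvw.1 hv2
    refine ⟨φ, fun hs => hns ?_⟩
    have h3 := sar K₁ b φ hK₁ iso hs
    rcases dirE_orth b hvw.2.1 hw2 hvw.2.2 with h4 | h4
    · rw [h4]; exact h3
    · apply symR_neg
      rw [h4, neg_neg]
      exact h3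
  have hfast := fst K₁ u hK₁ c1 hu hround
  -- constancy
  have hsym := mrk K₁ u w (b 2) D hK₁ hw hub2 horth hdense (by
    intro ψ hψ b' h0 h1 h2
    have hne : ¬ SymAff (coordE b' ⁻¹' K₁) 0 := by
      intro hs
      apply hψ
      have := sar K₁ b' 0 hK₁ iso hs
      rw [dirE_zero, dirE_half, h0, h1] at this
      exact this
    have hB := body3_preimage b' hK₁
    obtain ⟨a, c, hac, hH, -⟩ := Hts_eq hB
    have hh₀ : (a + c) / 2 ∈ Hts (coordE b' ⁻¹' K₁) := by
      rw [hH]; constructor <;> linarith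
    have hk := ktf _ 0 hB (unv K₁ hun₁ b') hne (nsu K₁ b' hK₁ (by rw [h0]; exact hns))
    refine ⟨Tm (Cq (coordE b' ⁻¹' K₁) ((a + c) / 2)) 0, ?_, fun h hh => ?_⟩
    · exact (hk _ hh₀ _ hh₀ (hfast b' h0 _ hh₀) (hfast b' h0 _ hh₀)).1
    · exact (hk _ hh _ hh₀ (hfast b' h0 _ hh) (hfast b' h0 _ hh₀)).2)
  apply hnw
  have h5 := hsym 0 b hb0 (by rw [hb1]; simp) (by simp)
  have := sar K₁ b 0 hK₁ iso h5
  rw [dirE_zero, dirE_half, hb0, hb1] at this
  exact this

end Pool.XR2
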