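import Pool.Agent.H52.XR2.S2

set_option autoImplicit false

open MeasureTheory Set Filter Topology Metric Asymptotics
open scoped Real ENNReal RealInnerProductSpace

namespace Pool.XR2

open Pool.Agent.H45.XR

/-- a supporting line of a section extends to a supporting plane -/
lemma s2d_extend {K : Set (ℂ × ℝ)} (hK : Body3 K) {h : ℝ} (hh : h ∈ Hts K) {p : ℂ}
    (hp : p ∈ sec K h) {f : ℂ →L[ℝ] ℝ} (hf : f ≠ 0) (hs : ∀ q ∈ sec K h, f q ≤ f p) :
    ∃ (G : (ℂ × ℝ) →L[ℝ] ℝ) (l α : ℝ), 0 < l ∧ (∀ q : ℂ × ℝ, G q = l * f q.1 + α * q.2) ∧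
      G ≠ 0 ∧ ∀ q ∈ K, G q ≤ G (p, h) := by
  obtain ⟨v, hv⟩ : ∃ v, f v ≠ 0 := by
    by_contra hcon
    push Not at hcon
    exact hf (ContinuousLinearMap.ext fun x => by simpa using hcon x)
  obtain ⟨v, hv⟩ : ∃ v, 0 < f v := by
    rcases lt_or_gt_of_ne hv with h1 | h1
    · exact ⟨-v, by rw [map_neg]; linarith⟩
    · exact ⟨v, h1⟩
  set A : Set (ℂ × ℝ) := {q | f p ≤ f q.1 ∧ q.2 = h} with hA
  have hAc : Convex ℝ A := by
    intro q hq r hr a b ha hb hab
    refine ⟨?_, ?_⟩
    · have h1 : f (a • q + b • r).1 = a * f q.1 + b * f r.1 := by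
        rw [Prod.fst_add, Prod.smul_fst, Prod.smul_fst, map_add, map_smul, map_smul]
        rfl
      rw [h1]
      have := hq.1
      have := hr.1
      have h2 : f p = a * f p + b * f p := by rw [← add_mul, hab, one_mul]
      rw [h2]
      gcongr <;> assumption
    · have h1 : (a • q + b • r).2 = a * q.2 + b * r.2 := by simp
      rw [h1, hq.2, hr.2, ← add_mul, hab, one_mul]
  have hdisj : Disjoint (interior K) A := by
    rw [Set.disjoint_left]
    rintro ⟨z, t⟩ hz ⟨h1, h2⟩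
    simp only at h1 h2
    subst h2
    have hc : Continuous fun s : ℝ => (z + s • v, t) := by fun_prop
    have h3 : ∀ᶠ s in 𝓝 (0:ℝ), (z + s • v, t) ∈ interior K := by
      refine hc.continuousAt.eventually (isOpen_interior.mem_nhds ?_)
      simpa using hz
    obtain ⟨ε, hε, hb⟩ := Metric.eventually_nhds_iff.1 h3
    have h4 := hb (y := ε / 2) (by rw [Real.dist_eq, sub_zero, abs_of_pos (by linarith)]; linarith)
    have h4' : (z + (ε / 2) • v, t) ∈ K := interior_subset h4
    have h5 : z + (ε / 2) • v ∈ sec K t := h4'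
    have h6 := hs _ h5
    rw [map_add, map_smul, smul_eq_mul] at h6
    nlinarith
  obtain ⟨G, s, h1, h2⟩ := geometric_hahn_banach_open hK.conv.interior isOpen_interior hAc hdisj
  have hcl : ∀ q ∈ K, G q ≤ s := by
    intro q hq
    have h3 : q ∈ closure (interior K) := by rw [h0closure_interior hK]; exact hq
    have h4 : closure (interior K) ⊆ {x | G x ≤ s} :=
      closure_minimal (fun x hx => (h1 x hx).le) (isClosed_le G.continuous continuous_const)
    exact h4 h3
  have hps : G (p, h) = s := le_antisymm (hcl _ hp) (h2 _ ⟨le_rfl, rfl⟩)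
  set G₁ : ℂ → ℝ := fun z => G (z, 0) with hG₁
  set α : ℝ := G (0, 1) with hα
  have hsplit : ∀ q : ℂ × ℝ, G q = G₁ q.1 + α * q.2 := by
    intro q
    have : q = (q.1, 0) + q.2 • ((0 : ℂ), (1 : ℝ)) := by
      apply Prod.ext <;> simp
    conv_lhs => rw [this]
    rw [map_add, map_smul, smul_eq_mul]
    simp only [hG₁, hα]
    ring
  have hadd : ∀ z w : ℂ, G₁ (z + w) = G₁ z + G₁ w := by
    intro z w
    have : ((z + w, 0) : ℂ × ℝ) = (z, 0) + (w, 0) := by simp
    simp only [hG₁]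
    rw [this, map_add]
  have hsm : ∀ (a : ℝ) (z : ℂ), G₁ (a • z) = a * G₁ z := by
    intro a z
    have : ((a • z, 0) : ℂ × ℝ) = a • (z, 0) := by simp
    simp only [hG₁]
    rw [this, map_smul, smul_eq_mul]
  have hlow : ∀ z, f p ≤ f z → G₁ p ≤ G₁ z := by
    intro z hz
    have h3 := h2 (z, h) ⟨hz, rfl⟩
    rw [← hps, hsplit, hsplit] at h3
    simp only at h3
    linarith
  have hker : ∀ w, f w = 0 → G₁ w = 0 := by
    intro w hw
    have h3 : ∀ a : ℝ, 0 ≤ a * G₁ w := by
      intro a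
      have h4 := hlow (p + a • w) (by rw [map_add, map_smul, hw]; simp)
      rw [hadd, hsm] at h4
      linarith
    have h4 := h3 1
    have h5 := h3 (-1)
    linarith
  set l : ℝ := G₁ v / f v with hl
  have hG₁f : ∀ z, G₁ z = l * f z := by
    intro z
    have h3 := hker (z - (f z / f v) • v) (by
      rw [map_sub, map_smul, smul_eq_mul]; field_simp; ring)
    have h4 : z = (z - (f z / f v) • v) + (f z / f v) • v := by abel
    rw [h4, hadd, h3, hsm, ← h4, hl]
    field_simp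
    ring
  have hl0 : 0 ≤ l := by
    have h3 := hlow (p + v) (by rw [map_add]; linarith)
    rw [hadd, hG₁f v] at h3
    by_contra h4
    push Not at h4
    nlinarith
  have hlne : l ≠ 0 := by
    intro h0
    obtain ⟨z, hz⟩ := hh
    have h3 := h1 _ hz
    rw [← hps, hsplit, hsplit] at h3
    simp only [hG₁f, h0] at h3
    linarith
  refine ⟨G, l, α, lt_of_le_of_ne hl0 (Ne.symm hlne), ?_, ?_, ?_⟩
  · intro q; rw [hsplit, hG₁f]
  · rintro rfl
    obtain ⟨x, hx⟩ := hK.ne
    have h3 := h1 x hx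
    have h4 : (0 : (ℂ × ℝ) →L[ℝ] ℝ) x = 0 := rfl
    have h5 : (0 : (ℂ × ℝ) →L[ℝ] ℝ) (p, h) = 0 := rfl
    rw [h4] at h3
    rw [h5] at hps
    linarith
  · intro q hq
    rw [hps]; exact hcl q hq

theorem t_s2d : S2DStmt := by
  intro K h hK h1 hh p hp f g hf hg h2 h3
  set z₀ := cen (sec K h) with hz₀
  have hp' : p + z₀ ∈ sec K h := hp
  have key : ∀ f : ℂ →L[ℝ] ℝ, (∀ q ∈ Cq K h, f q ≤ f p) → ∀ q ∈ sec K h, f q ≤ f (p + z₀) := by
    intro f hf q hq
    have h4 : q - z₀ ∈ Cq K h := by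
      show q - z₀ + z₀ ∈ sec K h
      rw [sub_add_cancel]; exact hq
    have h5 := hf _ h4
    rw [map_sub] at h5
    rw [map_add]
    linarith
  obtain ⟨F, l, α, hl, hF, hF0, hFK⟩ := s2d_extend hK hh hp' hf (key f h2)
  obtain ⟨G, m, β, hm, hG, hG0, hGK⟩ := s2d_extend hK hh hp' hg (key g h3)
  obtain ⟨c, hc, hcG⟩ := h1 _ hp' F G hF0 hG0 hFK hGK
  refine ⟨c * l / m, by positivity, ContinuousLinearMap.ext fun z => ?_⟩
  have h4 : G (z, 0) = c * F (z, 0) := by rw [hcG]; simp
  rw [hG, hF] at h4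
  simp only [mul_zero, add_zero] at h4
  have h5 : (c * l / m) • f z = g z := by
    rw [smul_eq_mul]
    field_simp
    linarith
  simpa using h5.symm

end Pool.XR2
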