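import Pool.Agent.H1.XR2.HTN
import Pool.Agent.H10.XR2.CSC
import Pool.Agent.H10.XR2.TLB
import Pool.Agent.H17.XR2.SAC
import Pool.Agent.H17.XR2.TAC
import Pool.Agent.H17.XR2.TLC
import Pool.Agent.H17.XR2.TPA
import Pool.Agent.H17.XR2.TWL
import Pool.Agent.H17.XR2.XNH
import Pool.Agent.H2.XR2.G2S
import Pool.Agent.H2.XR2.G3S
import Pool.Agent.H20.XR2.SLP
import Pool.Agent.H20.XR2.TLA
import Pool.Agent.H22.XR2.CLS
import Pool.Agent.H22.XR2.ELO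
import Pool.Agent.H25.XR2.LD1
import Pool.Agent.H27.XR2.C1A
import Pool.Agent.H27.XR2.CN
import Pool.Agent.H27.XR2.DSU
import Pool.Agent.H27.XR2.UDP
import Pool.Agent.H35.XR2.CLY
import Pool.Agent.H40.XR2.KTF
import Pool.Agent.H41.XR2.AFI
import Pool.Agent.H41.XR2.LNA
import Pool.Agent.H43.XR2.FLB
import Pool.Agent.H43.XR2.FLC
import Pool.Agent.H43.XR2.FLX
import Pool.Agent.H43.XR2.MNF
import Pool.Agent.H47.XR2.LOW
import Pool.Agent.H47.XR2.RCN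
import Pool.Agent.H47.XR2.RHA
import Pool.Agent.H47.XR2.RHC
import Pool.Agent.H49.XR2.SEG
import Pool.Agent.H52.XR2.A8T
import Pool.Agent.H52.XR2.AE8
import Pool.Agent.H52.XR2.CMT
import Pool.Agent.H52.XR2.CRT
import Pool.Agent.H52.XR2.FIN
import Pool.Agent.H52.XR2.S2D
import Pool.Agent.H55.XR2.HLD
import Pool.Agent.H61.XR2.DLT
import Pool.Agent.H61.XR2.FLN
import Pool.Agent.H61.XR2.LDF
import Pool.Agent.H61.XR2.NLH
import Pool.Agent.H61.XR2.NLM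
import Pool.Agent.H61.XR2.RODE
import Pool.Agent.H61.XR2.XND
import Pool.Agent.H62.XR2.A8D
import Pool.Agent.H62.XR2.CMP
import Pool.Agent.H62.XR2.FHD
import Pool.Agent.H62.XR2.RCT
import Pool.Agent.H63.XR2.MRG
import Pool.Agent.H63.XR2.NSU
import Pool.Agent.H63.XR2.SAR
import Pool.Agent.H65.XR2.PRL
import Pool.Agent.H65.XR2.SMR
import Pool.Agent.H65.XR2.WFL
import Pool.Agent.H67.XR2.GAP
import Pool.Agent.H67.XR2.POS
import Pool.Agent.H67.XR2.RND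
import Pool.Agent.H7.XR2.DIR
import Pool.Agent.H7.XR2.GFL
import Pool.Agent.H7.XR2.PSA
import Pool.Agent.H78.XR2.BDD
import Pool.Agent.H78.XR2.CPT
import Pool.Agent.H78.XR2.INB
import Pool.Agent.H78.XR2.SXC
import Pool.Agent.H79.XR2.UPP
import Pool.Agent.H82.XR2.FST
import Pool.Agent.H82.XR2.NSA
import Pool.Agent.H91.XR2.CHU
import Pool.Agent.H91.XR2.PMH
import Pool.Agent.H91.XR2.SGB
import Pool.Agent.H91.XR2.UNV
import Pool.Agent.H92.XR2.MRK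
import Pool.Agent.H93.XR2.HL1
import Pool.Agent.H97.XR2.ARC

/-!
# Project XR2: assembly
-/

set_option autoImplicit false

namespace Pool.XR2

namespace Asm

theorem afi_ : AFIStmt := t_afi

theorem unv_ : UNVStmt := t_unv

theorem flx_ : FLXStmt := t_flx

theorem flb_ : FLBStmt := t_flb flx_

theorem mnf_ : MNFStmt := t_mnf flx_ flb_

theorem dir_ : DIRStmt := t_dir flx_ flb_ mnf_

theorem cn1_ : CN1Stmt := t_cn1 flb_ mnf_

theorem nlm_ : NLMStmt := t_nlm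

theorem fln_ : FLNStmt := t_fln flx_ flb_ mnf_ dir_ cn1_ nlm_

theorem cn2_ : CN2Stmt := t_cn2 flb_ mnf_

theorem xnd_ : XNDStmt := t_xnd flx_ flb_

theorem wfl_ : WFLStmt := t_wfl flx_ flb_

theorem arc_ : ARCStmt := t_arc flx_ flb_ mnf_ wfl_

theorem rha_ : RHAStmt := t_rha

theorem cmp_ : CMPStmt := t_cmp flb_ rha_ wfl_ flx_

theorem gap_ : GAPStmt := t_gap flb_ rha_ wfl_ flx_

theorem gfl_ : GFLStmt := t_gfl flx_ flb_ wfl_

theorem psa_ : PSAStmt := t_psa flx_ flb_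

theorem ode_ : ODEStmt := t_ode

theorem dsu_ : DSUStmt := t_dsu flx_ flb_ wfl_ gap_ gfl_ psa_ ode_

theorem dsp_ : DSPStmt := t_dsp dsu_ flb_

theorem ld1_ : LD1Stmt := t_ld1

theorem ldf_ : LDFStmt := t_ldf flx_ flb_ wfl_

theorem a8t_ : A8TStmt := t_a8t

theorem a8d_ : A8DStmt := t_a8d flx_ flb_ wfl_ arc_ cmp_ gap_ dsp_ ld1_ ldf_ a8t_

theorem ae8_ : AE8Stmt := t_ae8 fln_ cn1_ cn2_ xnd_ a8d_ flx_

theorem nlh_ : NLHStmt := t_nlh flx_ flb_ mnf_ dir_ cn1_ nlm_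

theorem xnh_ : XNHStmt := t_xnh

theorem udp_ : UDPStmt := t_udp dsu_ flb_

theorem sgb_ : SGBStmt := t_sgb

theorem csc_ : CSCStmt := t_csc sgb_

theorem pmh_ : PMHStmt := t_pmh

theorem tpa_ : TPAStmt := t_tpa flx_

theorem flc_ : FLCStmt := t_flc flx_ flb_

theorem tac_ : TACStmt := t_tac flx_ flb_ flc_

theorem dlt_ : DLTStmt := t_dlt flx_ csc_ pmh_ tpa_ sgb_

theorem fhd_ : FHDStmt := t_fhd ae8_ nlh_ xnh_ cn1_ udp_ csc_ pmh_ tpa_ tac_ dlt_ flc_ flb_ sgb_ flx_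

theorem nsa_ : NSAStmt := t_nsa

theorem rhc_ : RHCStmt := t_rhc

theorem rcn_ : RCNStmt := t_rcn flc_ rhc_ flb_

theorem rct_ : RCTStmt := t_rct csc_ pmh_ rcn_ wfl_ sgb_

theorem crt_ : CRTStmt := t_crt fhd_ nsa_ rct_ arc_ cmp_ pmh_

theorem slp_ : SLPStmt := t_slp

theorem prl_ : PRLStmt := t_prl flx_ flb_ rha_

theorem lna_ : LNAStmt := t_lna flx_ flb_ rha_ mnf_

theorem cpt_ : CPTStmt := t_cpt

theorem inb_ : INBStmt := t_inb

theorem tlb_ : TLBStmt := t_tlb flx_ flb_ prl_ lna_ cpt_ rcn_ inb_ wfl_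

theorem cmt_ : CMTStmt := t_cmt flx_ rha_ flb_ wfl_

theorem sxc_ : SXCStmt := t_sxc

theorem tla_ : TLAStmt := t_tla cpt_ sxc_ inb_

theorem tlc_ : TLCStmt := t_tlc

theorem smr_ : SMRStmt := t_smr flx_ flb_ rha_ mnf_

theorem twl_ : TWLStmt := t_twl slp_ tla_ tlb_ tlc_ smr_ wfl_

theorem cls_ : CLSStmt := t_cls twl_ csc_ pmh_ sgb_

theorem g2s_ : G2SStmt := t_g2s

theorem cly_ : CLYStmt := t_cly

theorem sar_ : SARStmt := t_sar

theorem seg_ : SEGStmt := t_seg nsa_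

theorem nsu_ : NSUStmt := t_nsu

theorem c1a_ : C1AStmt := t_c1a unv_ crt_ slp_ tlb_ cmt_ cls_ g2s_ cly_ sar_ seg_ nsu_ pmh_ sgb_

theorem htn_ : HTNStmt := t_htn

theorem g3s_ : G3SStmt := t_g3s

theorem chu_ : CHUStmt := t_chu htn_ g3s_ cly_ seg_

theorem sac_ : SACStmt := t_sac sxc_

theorem sxl_ : SXLStmt := t_sxl

theorem elo_ : ELOStmt := t_elo sxl_ lna_ twl_ inb_ wfl_

theorem pos_ : POSStmt := t_pos flb_ rha_ arc_ cmp_ mnf_ flx_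

theorem s2d_ : S2DStmt := t_s2d

theorem bdd_ : BDDStmt := t_bdd inb_

theorem rnd_ : RNDStmt := t_rnd nsa_ crt_ cls_ sac_ elo_ pos_ s2d_ csc_ cpt_ bdd_ sxc_ rcn_ pmh_ sgb_

theorem hl1_ : HL1Stmt := t_hl1

theorem hld_ : HLDStmt := t_hld hl1_

theorem fst_ : FSTStmt := t_fst hld_

theorem low_ : LOWStmt := t_low flx_ flb_ rha_ mnf_

theorem upp_ : UPPStmt := t_upp flx_ flb_ rha_ mnf_

theorem ktf_ : KTFStmt := t_ktf crt_ cls_ twl_ low_ upp_ arc_ cmp_ pmh_ wfl_ sgb_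

theorem mrg_ : MRGStmt := t_mrg

theorem mrk_ : MRKStmt := t_mrk mrg_

theorem fin_ : FINStmt := t_fin afi_ c1a_ chu_ rnd_ fst_ unv_ ktf_ mrk_ sar_ g2s_ nsu_

end Asm

/-- every convex body is verified by two X-rays -/
theorem two_xrays : FINStmt := Asm.fin_

end Pool.XR2
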