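import Pool.Agent.H45.XR.Final
import Pool.Agent.H65.XR.Single
import Pool.Agent.H61.TX.Main

/-!
# Project XR2 (MP_5df5df_gt, m = 2): every convex body in 3-space is verified by two X-rays

Definitions. As in project XR the plane is `ℂ`, and 3-space is `ℂ × ℝ` (the second coordinate is
the height), or `E3` in the last part. Plan: team-store XR2_PLAN_helper52.md.
-/

set_option autoImplicit false

open MeasureTheory Set Filter Topology Metric Asymptotics
open scoped Real ENNReal RealInnerProductSpace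

namespace Pool.XR2

open Pool.Agent.H45.XR

/-! ### flips -/

/-- `F` is the flip of `C` in the direction `φ`: it exchanges the (lifted) polar angles of the two
boundary points on a line parallel to `e φ`. -/
structure IsFlip (C : Set ℂ) (φ : ℝ) (F : ℝ → ℝ) : Prop where
  anti : StrictAnti F
  inv : ∀ θ, F (F θ) = θ
  per : ∀ θ, F (θ + 2 * π) = F θ - 2 * π
  line : ∀ θ, tc φ (pt C (F θ)) = tc φ (pt C θ)
  phi : ∀ θ θ', θ < θ' → θ' < θ + 2 * π → (F θ = θ' ↔ Phi C θ θ' = φ)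
  rt : ∃ r, φ - π < r ∧ r < φ ∧ F r = r ∧ ∀ z ∈ C, tc φ (pt C r) ≤ tc φ z
  lt : ∃ l, φ < l ∧ l < φ + π ∧ F l = l - 2 * π ∧ ∀ z ∈ C, tc φ z ≤ tc φ (pt C l)

open Classical in
/-- The flip (a default value if there is none). -/
noncomputable def fl (C : Set ℂ) (φ : ℝ) : ℝ → ℝ :=
  if h : ∃ F, IsFlip C φ F then h.choose else fun θ => 2 * φ - π - θ

/-- First the flip in the direction `φ₀`, then the flip in the direction `φ₁`. -/
noncomputable def TT (C : Set ℂ) (φ₀ φ₁ : ℝ) (θ : ℝ) : ℝ := fl C φ₁ (fl C φ₀ θ)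

/-- The sequence `x, F x, G (F x), F (G (F x)), ...`. -/
def orb (F G : ℝ → ℝ) (x : ℝ) : ℕ → ℝ
  | 0 => x
  | n + 1 => if Even n then F (orb F G x n) else G (orb F G x n)

/-- The chain of boundary angles of `C` which starts at `x` (first direction `φ₀`). -/
noncomputable def orbC (C : Set ℂ) (φ₀ φ₁ x : ℝ) (n : ℕ) : ℝ := orb (fl C φ₀) (fl C φ₁) x n

/-- The level of the boundary point with angle `x` in the direction `φ` has distance at least `κ`
from both extreme levels of `C`. -/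
def Lv (C : Set ℂ) (φ κ x : ℝ) : Prop :=
  (∃ z ∈ C, tc φ z + κ ≤ tc φ (pt C x)) ∧ ∃ z ∈ C, tc φ (pt C x) + κ ≤ tc φ z

/-- The first `2q` chords of the chain of `x` are `κ`-good (the `n`-th chord joins the angles
`orbC n`, `orbC (n+1)` and has the direction `φ₀` for even `n`, `φ₁` for odd `n`). -/
def Gd (C : Set ℂ) (φ₀ φ₁ : ℝ) (q : ℕ) (κ x : ℝ) : Prop :=
  ∀ n < 2 * q, Lv C (if Even n then φ₀ else φ₁) κ (orbC C φ₀ φ₁ x n)

/-- `x` is fixed (mod `2π`) by `F`. -/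
def Fx (F : ℝ → ℝ) (x : ℝ) : Prop := ∃ k : ℤ, F x = x + k * (2 * π)

/-! ### rotation numbers -/

/-- Lifts of degree one (for circles of length `2π`). -/
structure Deg1 (T : ℝ → ℝ) : Prop where
  mono : StrictMono T
  per : ∀ x, T (x + 2 * π) = T x + 2 * π

open Classical in
/-- The same as an object of Mathlib (circle of length `1`). -/
noncomputable def lft (T : ℝ → ℝ) : CircleDeg1Lift :=
  if h : Deg1 T then
    { toFun := fun x => T (2 * π * x) / (2 * π)
      monotone' := fun x y hxy => by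
        have h1 : 2 * π * x ≤ 2 * π * y := by nlinarith [Real.pi_pos]
        exact div_le_div_of_nonneg_right (h.mono.monotone h1) (by positivity)
      map_add_one' := fun x => by
        have h1 : 2 * π * (x + 1) = 2 * π * x + 2 * π := by ring
        rw [h1, h.per]
        field_simp }
  else 1

/-- The rotation number (one full turn counts `1`). -/
noncomputable def rho (T : ℝ → ℝ) : ℝ := (lft T).translationNumber

/-- The rotation number of a planar body and two directions. -/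
noncomputable def rot (C : Set ℂ) (φ₀ φ₁ : ℝ) : ℝ := rho (TT C φ₀ φ₁)

/-! ### planar bodies -/

/-- A body between two balls. -/
structure Bd (r R : ℝ) (C : Set ℂ) : Prop where
  body : Body C
  inn : ball (0 : ℂ) r ⊆ C
  out : C ⊆ closedBall (0 : ℂ) R

/-- Convergence of planar bodies. -/
def BLim (C : ℕ → Set ℂ) (D : Set ℂ) : Prop :=
  TendstoUniformly (fun n => rad (C n)) (rad D) atTop

/-- Two planar bodies with the same X-rays in the directions `φ₀ < φ₁ < φ₀ + π`. -/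
structure PM (C C' : Set ℂ) (φ₀ φ₁ : ℝ) : Prop where
  b : Body C
  b' : Body C'
  h01 : φ₀ < φ₁
  h10 : φ₁ < φ₀ + π
  x0 : SameX C C' φ₀
  x1 : SameX C C' φ₁
  n0 : NoSeg C φ₀
  n1 : NoSeg C φ₁

/-- The combinatorial structure of a planar mate. -/
structure ArcS (C C' : Set ℂ) (φ₀ φ₁ : ℝ) (M : ℕ) (v : ℤ → ℝ) (c₀ c₁ : ℤ) : Prop where
  mono : StrictMono v
  per : ∀ x, v (x + M) = v x + 2 * π
  mem : ∀ x, v x ∈ EE C C'
  f0 : ∀ x, fl (C ∩ C') φ₀ (v x) = v (c₀ - x)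
  f1 : ∀ x, fl (C ∩ C') φ₁ (v x) = v (c₁ - x)
  e2 : 2 ≤ c₁ - c₀
  eM : c₁ - c₀ + 2 ≤ M

/-- `z` is an accumulation point of `E` from the right. -/
def AccR (E : Set ℝ) (z : ℝ) : Prop := ∀ δ > 0, ∃ y ∈ E, z < y ∧ y < z + δ

/-- `z` is an accumulation point of `E` from the left. -/
def AccL (E : Set ℝ) (z : ℝ) : Prop := ∀ δ > 0, ∃ y ∈ E, z - δ < y ∧ y < z

/-- The displacement of `z` under `q` turns, compared with `2πp`. -/
noncomputable def dsp (C : Set ℂ) (φ₀ φ₁ : ℝ) (p : ℤ) (q : ℕ) (x : ℝ) : ℝ :=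
  (TT C φ₀ φ₁)^[q] x - x - 2 * π * p

/-- The chain of `z` is tip-free and closed, and nearby displacements are `o(x - z)`, `x → z+`. -/
structure FlatR (C : Set ℂ) (φ₀ φ₁ : ℝ) (p : ℤ) (q : ℕ) (z : ℝ) : Prop where
  q0 : 0 < q
  gd : ∃ κ > 0, Gd C φ₀ φ₁ q κ z
  cl : dsp C φ₀ φ₁ p q z = 0
  flt : (fun x => dsp C φ₀ φ₁ p q x) =o[𝓝[>] z] (fun x => x - z)

/-- The X-ray of `C` in the direction `φ`, as a function of the signed distance `t`. -/
noncomputable def xr (C : Set ℂ) (φ t : ℝ) : ℝ :=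
  (volume {s : ℝ | (t : ℂ) * (Complex.I * e φ) + s * e φ ∈ C}).toReal

/-- The limit of (angle of the directions) / (rotation number): `∫ 2 / X`. -/
noncomputable def Tm (C : Set ℂ) (φ : ℝ) : ℝ≥0∞ :=
  ∫⁻ t in {t : ℝ | 0 < xr C φ t}, ENNReal.ofReal (2 / xr C φ t)

/-- Both tips of `C` in the direction `φ` are blunt: near the tip `p` the body contains all points
at depth at least `B |y|^(1+α)` and at most `δ`. -/
def Fast (C : Set ℂ) (φ : ℝ) : Prop :=
  ∃ B > (0 : ℝ), ∃ α > (0 : ℝ), ∃ δ > (0 : ℝ), ∀ σ : ℝ, (σ = 1 ∨ σ = -1) → ∀ p ∈ C,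
    (∀ z ∈ C, σ * tc φ p ≤ σ * tc φ z) → ∀ y t : ℝ, B * |y| ^ (1 + α) ≤ t → t ≤ δ →
      p + y * e φ + (σ * t : ℝ) * (Complex.I * e φ) ∈ C

/-- The diameter is at most `c` times every width. -/
def Round (c : ℝ) (S : Set ℂ) : Prop :=
  ∀ p ∈ S, ∀ q ∈ S, ∀ φ : ℝ, ∃ p' ∈ S, ∃ q' ∈ S, ‖p - q‖ ≤ c * (tc φ q' - tc φ p')

/-- The diagonal map with factor `a` along `e ψ` and `b` across. -/
noncomputable def Dg (ψ a b : ℝ) (z : ℂ) : ℂ :=
  ((a * yc ψ z : ℝ) : ℂ) * e ψ + ((b * tc ψ z : ℝ) : ℂ) * (Complex.I * e ψ)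

/-! ### bodies in 3-space, coordinates -/

/-- No boundary segments in the direction `φ` in all horizontal sections. -/
def NSH (K : Set (ℂ × ℝ)) (φ : ℝ) : Prop := ∀ h ∈ Hts K, NoSeg (Cq K h) φ

/-- `K'` has the same X-rays as `K` in the horizontal directions `φ₀`, `φ₁`. -/
structure Mate (K K' : Set (ℂ × ℝ)) (φ₀ φ₁ : ℝ) : Prop where
  body : Body3 K'
  x0 : ∀ h, SameX (sec K h) (sec K' h) φ₀
  x1 : ∀ h, SameX (sec K h) (sec K' h) φ₁

/-- The rotation number of the intersection of two mates at height `h`. -/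
noncomputable def rot3 (K K' : Set (ℂ × ℝ)) (φ₀ φ₁ h : ℝ) : ℝ :=
  rot (Cq K h ∩ Cq K' h) φ₀ φ₁

/-- The sheared body: its horizontal sections are the sections of `K` by planes with slope `g`. -/
def Sg (g : ℂ) (K : Set (ℂ × ℝ)) : Set (ℂ × ℝ) :=
  {p | (p.1, p.2 + (g.re * p.1.re + g.im * p.1.im)) ∈ K}

/-- No pair of directions verifies `K` (among all pairs parallel to planes with some slope). -/
def Unv3 (K : Set (ℂ × ℝ)) : Prop :=
  ∀ (g : ℂ) (φ₀ φ₁ : ℝ), φ₀ < φ₁ → φ₁ < φ₀ + π → ∃ K', Mate (Sg g K) K' φ₀ φ₁ ∧ K' ≠ Sg g K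

/-- The X-ray of `K` in the horizontal direction `φ` has an oblique symmetry with horizontal
direction. -/
def SymAff (K : Set (ℂ × ℝ)) (φ : ℝ) : Prop :=
  ∃ c₀ c₁ : ℝ, ∀ h ∈ Hts K, ∀ t, xr (sec K h) φ (c₀ + c₁ * h + t) = xr (sec K h) φ (c₀ + c₁ * h - t)

/-- Unique supporting planes. -/
def C1 {V : Type*} [NormedAddCommGroup V] [NormedSpace ℝ V] (K : Set V) : Prop :=
  ∀ p ∈ K, ∀ f g : V →L[ℝ] ℝ, f ≠ 0 → g ≠ 0 → (∀ q ∈ K, f q ≤ f p) → (∀ q ∈ K, g q ≤ g p) →
    ∃ c : ℝ, 0 < c ∧ g = c • f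

open Classical in
/-- The angle of the upper boundary point of `C` on the line `tc φ = t` (`C` without boundary
segments in the direction `φ`). -/
noncomputable def tpA (C : Set ℂ) (φ t : ℝ) : ℝ :=
  if h : ∃ θ, fl C φ θ < θ ∧ θ < fl C φ θ + 2 * π ∧ tc φ (pt C θ) = t then h.choose else 0

/-- The angle (seen from the centroid) of the upper boundary point of the section `sec K h` on the
line `tc φ = x`. -/
noncomputable def ta (K : Set (ℂ × ℝ)) (φ x h : ℝ) : ℝ :=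
  tpA (Cq K h) φ (x - tc φ (cen (sec K h)))

/-- The line `tc φ = x` meets the interior of `sec K h`. -/
def Inl (K : Set (ℂ × ℝ)) (φ x h : ℝ) : Prop := ∃ z, (z, h) ∈ interior K ∧ tc φ z = x

/-- The displacement at height `h` of the chain which starts at the upper point of the line `x`. -/
noncomputable def dsh (K : Set (ℂ × ℝ)) (φ₀ φ₁ : ℝ) (p : ℤ) (q : ℕ) (x h : ℝ) : ℝ :=
  dsp (Cq K h) φ₀ φ₁ p q (ta K φ₀ x h)

/-- Heights where two bodies have the same section. -/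
def ZZ (K K' : Set (ℂ × ℝ)) : Set ℝ := {h | h ∈ Hts K ∧ Cq K' h = Cq K h}

/-- Closed tip-free chain at height `y`, displacements `o(h - y)` for `h → y+`. -/
structure FlatH (K : Set (ℂ × ℝ)) (φ₀ φ₁ : ℝ) (p : ℤ) (q : ℕ) (x y : ℝ) : Prop where
  q0 : 0 < q
  hy : y ∈ Hts K
  inl : Inl K φ₀ x y
  gd : ∃ κ > 0, Gd (Cq K y) φ₀ φ₁ q κ (ta K φ₀ x y)
  cl : dsh K φ₀ φ₁ p q x y = 0
  flt : (fun h => dsh K φ₀ φ₁ p q x h) =o[𝓝[>] y] (fun h => h - y)

/-! ### bodies in `E3` -/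

/-- Length of the intersection with the line through `x` parallel to `u`. -/
noncomputable def xl (K : Set E3) (u x : E3) : ℝ≥0∞ := volume {s : ℝ | x + s • u ∈ K}

/-- The X-ray in the direction `u` is symmetric about the plane orthogonal to `w`. -/
def SymR (K : Set E3) (u w : E3) : Prop := ∀ x, xl K u (x - (2 * ⟪w, x⟫) • w) = xl K u x

/-- No pair of directions verifies `K`. -/
def Unver (K : Set E3) : Prop :=
  IsConvexBody K ∧ ∀ u v : sphere (0 : E3) 1, LinearIndependent ℝ ![(u : E3), (v : E3)] →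
    ¬ Pool.Agent.H61.TX.Verifies u v K

/-- Isotropic position (up to a factor). -/
def IsoPos (K : Set E3) : Prop :=
  (∫ x in K, x) = 0 ∧ ∃ c : ℝ, 0 < c ∧ ∀ ξ : E3, ∫ x in K, ⟪ξ, x⟫ ^ 2 = c * ‖ξ‖ ^ 2

/-- No boundary segment parallel to `u`. -/
def NoSegU (K : Set E3) (u : E3) : Prop :=
  ∀ p ∈ K, ∀ s : ℝ, s ≠ 0 → p + s • u ∈ K → ∃ t : ℝ, p + t • u ∈ interior K

/-- Orthonormal pairs. -/
def OP (u w : E3) : Prop := ‖u‖ = 1 ∧ ‖w‖ = 1 ∧ ⟪u, w⟫ = 0

end Pool.XR2
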